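import Mathlib
import Pool.Agent.H.MP_5d01ce_co.C

set_option autoImplicit false

namespace Pool.Agent.H.MP_97f6bf_co

open Set Submodule Module Matroid Pool.Agent.H.MP_5d01ce_co

section gam
variable {F : Type} [Field F]

def γ (x : F) : Fin 7 → Fin 3 → F :=
  ![![0, 0, 1], ![1, -1, 0], ![1, -1, 1], ![1, 0, 0], ![0, 1, 0], ![1, 0, x], ![0, 1, x]]

def D3 (a b c : Fin 3 → F) : F :=
  a 0 * b 1 * c 2 - a 0 * b 2 * c 1 - a 1 * b 0 * c 2 + a 1 * b 2 * c 0 + a 2 * b 0 * c 1 -
    a 2 * b 1 * c 0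

theorem li3 {ι : Type} [DecidableEq ι] (w : ι → Fin 3 → F) {a b c : ι} (ab : a ≠ b) (ac : a ≠ c)
    (bc : b ≠ c) : LinearIndepOn F w ({a, b, c} : Finset ι) ↔ D3 (w a) (w b) (w c) ≠ 0 := by
  have h1 : (({a, b, c} : Finset ι) : Set ι) = ![a, b, c] '' univ := by
    simp [Matrix.range_cons, Matrix.range_empty]; ext; simp; tauto
  have h2 : Function.Injective ![a, b, c] := by
    intro i j; fin_cases i <;> fin_cases j <;> simp [ab, ac, bc, ab.symm, ac.symm, bc.symm]
  have h3 : LinearIndepOn F w (![a, b, c] '' univ) ↔ LinearIndependent F (w ∘ ![a, b, c]) := by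
    rw [← linearIndepOn_univ_iff]
    exact ⟨fun h => h.comp_of_image h2.injOn, LinearIndepOn.image_of_comp _ _⟩
  rw [h1, h3]
  have h4 := Matrix.linearIndependent_rows_iff_isUnit (A := Matrix.of (w ∘ ![a, b, c]))
  rw [Matrix.isUnit_iff_isUnit_det, isUnit_iff_ne_zero, Matrix.det_fin_three] at h4
  exact h4

def L5 : Finset (Finset (Fin 7)) := {{0, 1, 2}, {1, 3, 4}, {0, 3, 5}, {0, 4, 6}, {1, 5, 6}}

theorem li_γ {x : F} (hx : x ≠ 0) (T : Finset (Fin 7)) : LinearIndepOn F (γ x) T ↔
    T.card ≤ 3 ∧ T ∉ L5 ∧ (T = {2, 4, 5} → x ≠ 1) ∧ (T = {2, 3, 6} → x ≠ -1) := by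
  have key : ∀ a b c : Fin 7, a < b → b < c → (D3 (γ x a) (γ x b) (γ x c) ≠ 0 ↔
      ({a, b, c} : Finset (Fin 7)) ∉ L5 ∧ (({a, b, c} : Finset (Fin 7)) = {2, 4, 5} → x ≠ 1) ∧
        (({a, b, c} : Finset (Fin 7)) = {2, 3, 6} → x ≠ -1)) := by
    intro a b c ab bc
    fin_cases a <;> fin_cases b <;> (try exact absurd ab (by decide)) <;> fin_cases c <;>
      (try exact absurd bc (by decide)) <;>
      simp (config := {decide := true}) [D3, γ, hx] <;> grind
  have k3 : ∀ T : Finset (Fin 7), T.card = 3 → ∃ a b c : Fin 7, a < b ∧ b < c ∧ T = {a, b, c} := by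
    decide +kernel
  have k2 : ∀ T : Finset (Fin 7), T.card ≤ 2 → ∃ T' : Finset (Fin 7), T ⊆ T' ∧ T'.card = 3 ∧
      T' ∉ L5 ∧ T' ≠ {2, 4, 5} ∧ T' ≠ {2, 3, 6} := by decide +kernel
  have h3 : ∀ T : Finset (Fin 7), T.card = 3 → (LinearIndepOn F (γ x) T ↔
      T ∉ L5 ∧ (T = {2, 4, 5} → x ≠ 1) ∧ (T = {2, 3, 6} → x ≠ -1)) := by
    intro T h
    obtain ⟨a, b, c, ab, bc, rfl⟩ := k3 T h
    rw [li3 _ ab.ne (ab.trans bc).ne bc.ne, key a b c ab bc]
  rcases lt_trichotomy T.card 3 with h | h | h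
  · obtain ⟨T', a, b, c, d, e⟩ := k2 T (by omega)
    refine iff_of_true (((h3 T' b).2 ⟨c, fun q => absurd q d, fun q => absurd q e⟩).mono
      (Finset.coe_subset.2 a)) ⟨h.le, fun q => ?_, ?_, ?_⟩
    · have : ∀ T ∈ L5, T.card = 3 := by decide +kernel
      have := this T q; omega
    · rintro rfl; exact absurd h (by decide)
    · rintro rfl; exact absurd h (by decide)
  · rw [h3 T h, and_iff_right h.le]
  · refine iff_of_false (fun q => ?_) fun q => by omega
    have := LinearIndependent.fintype_card_le_finrank q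
    simp at this; omega

theorem nonrep {U : Type} [AddCommGroup U] [Module F U] (w : Fin 7 → U) (p : Prop)
    (h : ∀ T : Finset (Fin 7), LinearIndepOn F w T ↔
      T.card ≤ 3 ∧ T ∉ L5 ∧ T ≠ {2, 4, 5} ∧ (T = {2, 3, 6} → p)) : p ↔ (2 : F) ≠ 0 := by
  have hb : LinearIndepOn F w ({0, 3, 4} : Finset (Fin 7)) := (h _).2
    ⟨by decide, by decide +kernel, by decide, fun q => absurd q (by decide)⟩
  have hs : ∀ i, ∃ c : Fin 3 → F, c 0 • w 0 + c 1 • w 3 + c 2 • w 4 = w i := by
    intro i
    have : w i ∈ span F (w '' ({0, 3, 4} : Finset (Fin 7))) := by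
      by_cases q : i ∈ ({0, 3, 4} : Finset (Fin 7))
      · exact subset_span ⟨i, q, rfl⟩
      by_contra r
      have := ((h (insert i {0, 3, 4})).1 (by
        rw [Finset.coe_insert]; exact (linearIndepOn_insert q).2 ⟨hb, r⟩)).1
      rw [Finset.card_insert_of_notMem q] at this
      exact absurd this (by decide)
    simp only [Finset.coe_insert, Finset.coe_singleton, image_insert_eq, image_singleton,
      mem_span_triple] at this
    obtain ⟨a, b, c, e⟩ := this
    exact ⟨![a, b, c], e⟩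
  choose c hc using hs
  let L : (Fin 3 → F) →ₗ[F] U := Fintype.linearCombination F ![w 0, w 3, w 4]
  have hL : ∀ y, L y = y 0 • w 0 + y 1 • w 3 + y 2 • w 4 := fun y => by
    simp [L, Fintype.linearCombination_apply, Fin.sum_univ_three]
  have inj : ∀ y, L y = 0 → y = 0 := by
    intro y hy
    have := linearIndepOn_finset_iff.1 hb (fun i => if i = 0 then y 0 else if i = 3 then y 1 else y 2)
      (by rw [← hy, hL]; simp (config := {decide := true}) [add_assoc])
    funext j
    fin_cases j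
    · simpa using this 0 (by decide)
    · simpa using this 3 (by decide)
    · simpa using this 4 (by decide)
  have e : w = L ∘ c := funext fun i => by simp [hL, hc]
  have c0 : c 0 = ![1, 0, 0] := sub_eq_zero.1 (inj _ (by rw [map_sub, hL (c 0), hc, hL]; simp))
  have c3 : c 3 = ![0, 1, 0] := sub_eq_zero.1 (inj _ (by rw [map_sub, hL (c 3), hc, hL]; simp))
  have c4 : c 4 = ![0, 0, 1] := sub_eq_zero.1 (inj _ (by rw [map_sub, hL (c 4), hc, hL]; simp))
  have k : ∀ a b d : Fin 7, a ≠ b → a ≠ d → b ≠ d → (D3 (c a) (c b) (c d) ≠ 0 ↔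
      ({a, b, d} : Finset (Fin 7)).card ≤ 3 ∧ ({a, b, d} : Finset (Fin 7)) ∉ L5 ∧
      ({a, b, d} : Finset (Fin 7)) ≠ {2, 4, 5} ∧ (({a, b, d} : Finset (Fin 7)) = {2, 3, 6} → p)) := by
    intro a b d h1 h2 h3
    rw [← li3 c h1 h2 h3, ← h, e]
    exact (L.linearIndepOn_iff_of_injOn ((injective_iff_map_eq_zero L).2 inj).injOn).symm
  have k1 := k 0 1 2 (by decide) (by decide) (by decide)
  have k2 := k 1 3 4 (by decide) (by decide) (by decide)
  have k3 := k 0 3 5 (by decide) (by decide) (by decide)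
  have k4 := k 0 4 6 (by decide) (by decide) (by decide)
  have k5 := k 1 5 6 (by decide) (by decide) (by decide)
  have k6 := k 2 4 5 (by decide) (by decide) (by decide)
  have k7 := k 2 3 6 (by decide) (by decide) (by decide)
  have n1 := k 2 3 4 (by decide) (by decide) (by decide)
  have n2 := k 0 3 6 (by decide) (by decide) (by decide)
  have n3 := k 0 1 4 (by decide) (by decide) (by decide)
  have n4 := k 0 4 5 (by decide) (by decide) (by decide)
  simp (config := {decide := true}) only [D3, c0, c3, c4, Matrix.cons_val_zero, Matrix.cons_val_one,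
    Matrix.cons_val, mul_zero, zero_mul, mul_one, one_mul, sub_zero, add_zero, zero_add, zero_sub,
    true_and, false_and, and_false, iff_false, not_not, forall_const, false_imp_iff, and_true,
    iff_true, neg_ne_zero, neg_eq_zero, not_false_iff] at k1 k2 k3 k4 k5 k6 k7 n1 n2 n3 n4
  rw [← k7]
  have : (c 2 0 * c 6 2 - c 2 2 * c 6 0) * (c 1 1 * c 5 1) =
      2 * (c 2 0 * c 6 2 * (c 1 1 * c 5 1)) := by
    rw [k2, k3, k4] at k5
    linear_combination -(c 5 1 * c 6 0) * k1 + c 2 1 * k5 + c 1 1 * c 6 2 * k6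
  have n5 := mul_ne_zero n3 n4
  constructor
  · intro q r
    rw [r, zero_mul] at this
    exact mul_ne_zero q n5 this
  · intro q r
    rw [r, zero_mul] at this
    exact mul_ne_zero q (mul_ne_zero (mul_ne_zero n1 n2) n5) this.symm

end gam

section gen
variable {F ι U : Type} [Field F] [AddCommGroup U] [Module F U]

theorem li_iff_rk {v : ι → U} {X : Finset ι} : LinearIndepOn F v X ↔ X.card = rk F v X := by
  rw [LinearIndepOn, linearIndependent_iff_card_eq_finrank_span, rk, image_eq_range]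
  simp [Set.finrank]

theorem rk_split {G : Type} [AddCommGroup G] [Module F G] (S : Submodule F (U × G))
    [FiniteDimensional F S] (T : Submodule F G) (h : ∀ c, c ∈ T ↔ (0, c) ∈ S) :
    finrank F S = finrank F (S.map (LinearMap.fst F U G)) + finrank F T := by
  rw [← LinearMap.finrank_range_add_finrank_ker ((LinearMap.fst F U G).domRestrict S),
    LinearMap.range_domRestrict, ← finrank_map_subtype_eq S,
    (equivMapOfInjective (LinearMap.inr F U G) LinearMap.inr_injective T).finrank_eq]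
  refine congrArg _ (congrArg (fun Z : Submodule F (U × G) => finrank F Z) ?_)
  ext ⟨a, c⟩
  simp only [mem_map, LinearMap.mem_ker, LinearMap.domRestrict_apply, LinearMap.fst_apply,
    subtype_apply, LinearMap.inr_apply, Prod.mk.injEq]
  constructor
  · rintro ⟨⟨x, hx⟩, h1, rfl⟩
    exact ⟨c, (h c).2 (by rwa [← show a = 0 from h1]), (show a = 0 from h1).symm, rfl⟩
  · rintro ⟨d, h1, rfl, rfl⟩
    exact ⟨⟨_, (h d).1 h1⟩, rfl, rfl⟩

variable [Fintype ι] [DecidableEq ι] [Infinite F]

theorem generic {M : Matroid ι} {v : ι → U} (r : Rp F M v) (hE : M.E = univ) {S : Finset ι}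
    (hS : M.IsBase S) : ∃ (P : U) (g : ι → F), (∀ e ∈ S, g e = 0) ∧ P ∈ span F (range v) ∧
      (∀ X : Finset ι, P ∈ span F (v '' X) → M.Spanning X) ∧
      (∀ X : Finset ι, ¬ M.Indep X → ∃ l : ι → F, ∑ e ∈ X, l e • v e = 0 ∧ ∑ e ∈ X, l e * g e = 1) ∧
      ∀ X : Finset ι, M.IsBase X → X ≠ S → ∃ l : ι → F, ∑ e ∈ X, l e • v e = P ∧
        ∀ y : Fin 3, ∑ e ∈ X, l e * g e ≠ ((y : ℕ) : F) := by
  have sp : ∀ X : Set ι, M.Spanning X ↔ span F (range v) ≤ span F (v '' X) := by
    intro X
    rw [spanning_iff_ground_subset_closure (hE ▸ subset_univ _), span_le, range_subset_iff, hE]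
    exact ⟨fun h e => (r.cl (hE ▸ subset_univ _) (hE ▸ mem_univ e)).1 (h (mem_univ e)),
      fun h e _ => (r.cl (hE ▸ subset_univ _) (hE ▸ mem_univ e)).2 (h e)⟩
  obtain ⟨⟨P, hP⟩, h1⟩ := exists_forall_notMem_of_forall_ne_top
    (fun X : {X : Finset ι // ¬ M.Spanning X} =>
      (span F (v '' X.1)).comap (span F (range v)).subtype)
    fun X q => X.2 ((sp _).2 (comap_subtype_eq_top.1 q))
  have h2 : ∀ X : Finset ι, P ∈ span F (v '' X) → M.Spanning X := fun X q => by
    by_contra t; exact h1 ⟨X, t⟩ q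
  have li := fun X : Set ι => r X (hE ▸ subset_univ _)
  have h3 : ∀ X : Finset ι, ∃ l : ι → F, (¬ M.Indep X → ∑ e ∈ X, l e • v e = 0) ∧
      (M.IsBase X → ∑ e ∈ X, l e • v e = P) ∧
      (¬ M.Indep X ∨ (M.IsBase X ∧ X ≠ S) → ∃ e ∈ X, e ∉ S ∧ l e ≠ 0) := by
    intro X
    by_cases a : M.Indep X
    · by_cases b : M.IsBase X
      · obtain ⟨l, hl⟩ := (mem_span_image_finset_iff_exists_fun' F).1 ((sp _).1 b.spanning hP)
        refine ⟨l, fun q => absurd a q, fun _ => hl, fun q => ?_⟩
        obtain ⟨e, e1, e2⟩ : ∃ e ∈ X, e ∉ S := by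
          by_contra t
          push Not at t
          exact (q.resolve_left (not_not.2 a)).2
            (Finset.coe_inj.1 (b.eq_of_subset_isBase hS t))
        refine ⟨e, e1, e2, fun t => ?_⟩
        have := h2 (X.erase e) ((mem_span_image_finset_iff_exists_fun' F).2
          ⟨l, by rw [← hl, ← Finset.add_sum_erase _ _ e1, t, zero_smul, zero_add]⟩)
        have := b.eq_of_superset_spanning this (by simp)
        exact (Finset.notMem_erase e X) (Finset.coe_inj.1 this ▸ e1)
      · exact ⟨0, fun q => absurd a q, fun q => absurd q b, by simp [a, b]⟩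
    · rw [li, linearIndepOn_finset_iff] at a
      push Not at a
      obtain ⟨l, h4, e, e1, e2⟩ := a
      refine ⟨l, fun _ => h4, fun q => ?_, fun _ => ?_⟩
      · exact absurd (linearIndepOn_finset_iff.1 ((li _).1 q.indep) l h4 e e1) e2
      by_contra t
      push Not at t
      have h5 : LinearIndepOn F v ↑(X ∩ S) := ((li _).1 hS.indep).mono (by simp)
      refine e2 (linearIndepOn_finset_iff.1 h5 l ?_ e
        (Finset.mem_inter.2 ⟨e1, by by_contra u; exact e2 (t e e1 u)⟩))
      rw [← h4]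
      exact Finset.sum_subset Finset.inter_subset_left fun x a b => by
        rw [t x a fun u => b (Finset.mem_inter.2 ⟨a, u⟩), zero_smul]
  choose l l1 l2 l3 using h3
  let φ : Finset ι → Fin 3 → Dual F ((ι → F) × F) := fun X y =>
    (∑ e ∈ X \ S, l X e • (LinearMap.proj e).comp (LinearMap.fst F (ι → F) F)) -
      ((y : ℕ) : F) • LinearMap.snd F (ι → F) F
  have hφ : ∀ X y z, φ X y z = ∑ e ∈ X \ S, l X e * z.1 e - ((y : ℕ) : F) * z.2 := by
    intro X y z; simp [φ, LinearMap.sum_apply]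
  obtain ⟨⟨g, s⟩, h6⟩ := Module.Dual.exists_forall_ne_zero_of_forall_exists
    (fun i : Option ({X : Finset ι // ¬ M.Indep X ∨ (M.IsBase X ∧ X ≠ S)} × Fin 3) =>
      i.elim (LinearMap.snd F (ι → F) F) fun i => φ i.1.1 i.2) (by
      rintro (_ | ⟨⟨X, hX⟩, y⟩)
      · exact ⟨(0, 1), by simp⟩
      · obtain ⟨e, e1, e2, e3⟩ := l3 X hX
        refine ⟨(Pi.single e 1, 0), ?_⟩
        simp only [Option.elim, hφ]
        rw [Finset.sum_eq_single e (fun b _ q => by simp [Pi.single_eq_of_ne q])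
          (fun q => absurd (Finset.mem_sdiff.2 ⟨e1, e2⟩) q)]
        simpa using e3)
  have hs : s ≠ 0 := h6 none
  have h7 : ∀ X : Finset ι, ¬ M.Indep X ∨ (M.IsBase X ∧ X ≠ S) → ∀ y : Fin 3,
      ∑ e ∈ X, l X e * (if e ∈ S then 0 else g e / s) ≠ ((y : ℕ) : F) := by
    intro X hX y q
    refine h6 (some (⟨X, hX⟩, y)) ?_
    simp only [Option.elim, hφ]
    rw [← q, Finset.sum_mul, sub_eq_zero]
    refine (Finset.sum_congr rfl fun e he => ?_).trans
      (Finset.sum_subset Finset.sdiff_subset fun e a b => ?_)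
    · rw [if_neg (Finset.mem_sdiff.1 he).2]; field_simp
    · rw [if_pos (by simpa [a] using b)]; simp
  refine ⟨P, fun e => if e ∈ S then 0 else g e / s, fun e he => if_pos he, hP, h2, fun X hX => ?_,
    fun X a b => ⟨l X, l2 X a, h7 X (Or.inr ⟨a, b⟩)⟩⟩
  have h8 := h7 X (Or.inl hX) 0
  simp only [Fin.val_zero, Nat.cast_zero] at h8
  refine ⟨fun e => (∑ e ∈ X, l X e * (if e ∈ S then 0 else g e / s))⁻¹ * l X e, ?_, ?_⟩
  · simp only [mul_smul, ← Finset.smul_sum, l1 X hX, smul_zero]
  · simp only [mul_assoc, ← Finset.mul_sum, inv_mul_cancel₀ h8]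

open Classical in
noncomputable def TT (sp li : Prop) (J : Finset (Fin 7)) : Finset (Fin 7) :=
  (if sp then J else J \ {5, 6} ∪ (if 5 ∈ J ∧ 6 ∈ J then {1} else ∅)) ∪ (if li then ∅ else {0})

open Classical in
theorem formula [FiniteDimensional F U] {M : Matroid ι} {v : ι → U} (r : Rp F M v)
    (hE : M.E = univ) {S : Finset ι} (hS : M.IsBase S) :
    ∃ u : ι ⊕ Fin 7 → U × (Fin 3 → F), (∀ e, (u (.inl e)).1 = v e) ∧
      (∀ i, i < 5 → (u (.inr i)).1 = 0) ∧ ∀ (X : Finset ι) (J : Finset (Fin 7)), ∃ x : F,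
        (X = S → x = 1) ∧ (X ≠ S → x ≠ 0 ∧ x ≠ 1 ∧ x ≠ -1) ∧
        rk F u (X.disjSum J) = rk F v X + (if ¬ M.Spanning X ∧ (5 ∈ J ∨ 6 ∈ J) then 1 else 0) +
          rk F (γ x) (TT (M.Spanning X) (M.Indep X) J) := by
  obtain ⟨P, g, g0, hP, h2, h3, h4⟩ := generic r hE hS
  let d : Fin 3 → F := ![0, 0, 1]
  let u : ι ⊕ Fin 7 → U × (Fin 3 → F) :=
    Sum.elim (fun e => (v e, g e • d)) fun i => (if 5 ≤ i then P else 0, γ 1 i)
  refine ⟨u, fun _ => rfl, fun i hi => if_neg hi.not_ge, fun X J => ?_⟩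
  have li := r X (hE ▸ subset_univ _)
  have sp : M.Spanning X → P ∈ span F (v '' X) := fun h => span_le.2 (by
    rintro _ ⟨e, rfl⟩
    exact (r.cl (hE ▸ subset_univ _) (hE ▸ mem_univ e)).1 (h.closure_eq ▸ hE ▸ mem_univ e)) hP
  obtain ⟨x, x1, x2, x3⟩ : ∃ x : F, (X = S → x = 1) ∧ (X ≠ S → x ≠ 0 ∧ x ≠ 1 ∧ x ≠ -1) ∧
      (M.IsBase X → ∃ l : ι → F, ∑ e ∈ X, l e • v e = P ∧ ∑ e ∈ X, l e * g e = 1 - x) := by
    by_cases a : X = S
    · obtain ⟨l, hl⟩ := (mem_span_image_finset_iff_exists_fun' F).1 (sp (a ▸ hS.spanning))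
      exact ⟨1, fun _ => rfl, fun q => absurd a q, fun _ => ⟨l, hl, by
        rw [sub_self]; exact Finset.sum_eq_zero fun e he => by rw [g0 e (a ▸ he), mul_zero]⟩⟩
    by_cases b : M.IsBase X
    · obtain ⟨l, l1, l2⟩ := h4 X b a
      refine ⟨1 - ∑ e ∈ X, l e * g e, fun q => absurd q a, fun _ => ⟨fun q => l2 1 ?_,
        fun q => l2 0 ?_, fun q => l2 2 ?_⟩, fun _ => ⟨l, l1, by ring⟩⟩
      · simp only [Fin.val_one, Nat.cast_one]; linear_combination -q
      · simp only [Fin.val_zero, Nat.cast_zero]; linear_combination -q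
      · simp only [Fin.val_two, Nat.cast_ofNat]; linear_combination -q
    · obtain ⟨x, hx⟩ := Infinite.exists_notMem_finset ({0, 1, -1} : Finset F)
      exact ⟨x, fun q => absurd q a, fun _ => by simpa [not_or] using hx, fun q => absurd q b⟩
  refine ⟨x, x1, x2, ?_⟩
  set Z := span F (u '' ↑(X.disjSum J)) with hZ
  have mX : ∀ l : ι → F, (∑ e ∈ X, l e • v e, (∑ e ∈ X, l e * g e) • d) ∈ Z := by
    intro l
    have : (∑ e ∈ X, l e • v e, (∑ e ∈ X, l e * g e) • d) = ∑ e ∈ X, l e • u (.inl e) := by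
      simp [u, Prod.ext_iff, Prod.fst_sum, Prod.snd_sum, Finset.sum_smul, mul_smul]
    rw [this]
    exact sum_mem fun e he => smul_mem _ _ (subset_span ⟨_, by simpa using he, rfl⟩)
  have mJ : ∀ i ∈ J, u (.inr i) ∈ Z := fun i hi => subset_span ⟨_, by simpa using hi, rfl⟩
  have md : ¬ M.Indep X → ((0 : U), d) ∈ Z := fun h => by
    obtain ⟨l, l1, l2⟩ := h3 X h
    simpa [l1, l2] using mX l
  have mP : M.Spanning X → (P, (1 - x) • d) ∈ Z := fun h => by
    by_cases a : M.Indep X
    · obtain ⟨l, l1, l2⟩ := x3 (a.isBase_of_spanning h)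
      simpa [l1, l2] using mX l
    · obtain ⟨l, hl⟩ := (mem_span_image_finset_iff_exists_fun' F).1 (sp h)
      have := add_mem (mX l) (smul_mem _ (1 - x - ∑ e ∈ X, l e * g e) (md a))
      simpa [hl, ← add_smul] using this
  have γ5 : ∀ i : Fin 7, γ 1 i = γ x i + (if 5 ≤ i then 1 - x else 0) • d := by
    intro i; fin_cases i <;> simp [γ, d]
  rw [rk, rk_split Z (span F (γ x '' ↑(TT (M.Spanning X) (M.Indep X) J))) fun c => ⟨fun h => ?_,
    fun h => ?_⟩]
  · congr 1
    have e : Z.map (LinearMap.fst F _ _) = span F (v '' X) ⊔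
        (if 5 ∈ J ∨ 6 ∈ J then span F {P} else ⊥) := by
      refine le_antisymm ?_ (sup_le (span_le.2 ?_) ?_)
      · rw [hZ, map_span, span_le]
        rintro _ ⟨_, ⟨e | i, he, rfl⟩, rfl⟩
        · exact mem_sup_left (subset_span ⟨e, by simpa using he, rfl⟩)
        · have hi : i ∈ J := by simpa using he
          by_cases q : 5 ≤ i
          · rw [if_pos (by
              rcases (by omega : i = 5 ∨ i = 6) with rfl | rfl; exacts [Or.inl hi, Or.inr hi])]
            exact mem_sup_right (by simp [u, q])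
          · simp [u, q]
      · rintro _ ⟨e, he, rfl⟩
        exact ⟨u (.inl e), subset_span ⟨_, by simpa using he, rfl⟩, rfl⟩
      · split_ifs with q
        · rw [span_singleton_le_iff_mem]
          rcases q with q | q
          exacts [⟨_, mJ 5 q, by simp [u]⟩, ⟨_, mJ 6 q, by simp [u]⟩]
        · exact bot_le
    rw [e]
    by_cases q : 5 ∈ J ∨ 6 ∈ J
    · by_cases a : M.Spanning X
      · rw [if_pos q, if_neg (by simp [a]), sup_eq_left.2 ((span_singleton_le_iff_mem _ _).2 (sp a))]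
        rfl
      · rw [if_pos q, if_pos ⟨a, q⟩, finrank_sup_span_singleton fun t => a (h2 X t)]
        rfl
    · rw [if_neg q, if_neg (by simp [q]), sup_bot_eq]
      rfl
  · refine (span_le.2 ?_ : span F _ ≤ Z.comap (LinearMap.inr F _ _)) h
    rintro _ ⟨i, hi, rfl⟩
    have small : ∀ i ∈ J, ¬ 5 ≤ i → ((0 : U), γ x i) ∈ Z := fun i hi q => by
      simpa [u, q, γ5 i] using mJ i hi
    simp only [TT, Finset.coe_union, mem_union, Finset.mem_coe] at hi
    show ((0 : U), γ x i) ∈ Z
    rcases hi with hi | hi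
    · split_ifs at hi with a b
      · by_cases q : 5 ≤ i
        · simpa [u, q, γ5 i] using sub_mem (mJ i hi) (mP a)
        · exact small i hi q
      · rcases Finset.mem_union.1 hi with hi | hi
        · simp only [Finset.mem_sdiff, Finset.mem_insert, Finset.mem_singleton] at hi
          exact small i hi.1 (by omega)
        · rw [Finset.mem_singleton.1 hi]
          convert sub_mem (mJ 5 b.1) (mJ 6 b.2) using 1
          simp [u, γ]
      · simp only [Finset.union_empty, Finset.mem_sdiff, Finset.mem_insert,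
          Finset.mem_singleton] at hi
        exact small i hi.1 (by omega)
    · split_ifs at hi with a
      · simp at hi
      · rw [Finset.mem_singleton.1 hi]; exact md a
  · obtain ⟨a, ha⟩ := (mem_span_image_finset_iff_exists_fun' F).1 h
    rw [Finset.sum_disjSum] at ha
    let b : Fin 7 → F := fun i => if i ∈ J then a (.inr i) else 0
    have hb : ∑ i ∈ J, a (.inr i) • u (.inr i) = ∑ i, b i • u (.inr i) := by
      simp [b, ite_smul, Finset.sum_ite_mem]
    rw [hb, Fin.sum_univ_seven] at ha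
    have e1 := congrArg Prod.fst ha
    have e2 := congrArg Prod.snd ha
    simp (config := {decide := true}) only [u, Prod.fst_add, Prod.fst_sum, Prod.smul_fst,
      Sum.elim_inl, Sum.elim_inr, Prod.snd_add, Prod.snd_sum, Prod.smul_snd, if_true, if_false,
      smul_zero, zero_add, smul_smul, ← Finset.sum_smul, ← add_smul] at e1 e2
    set R := span F (γ x '' ↑(TT (M.Spanning X) (M.Indep X) J))
    have m1 : ∀ i, i ∈ TT (M.Spanning X) (M.Indep X) J → γ x i ∈ R :=
      fun i hi => subset_span ⟨i, hi, rfl⟩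
    have m2 : ∀ i, (5 ≤ i → M.Spanning X) → b i • γ x i ∈ R := by
      intro i hi
      by_cases q : i ∈ J
      · refine smul_mem _ _ (m1 i (Finset.mem_union_left _ ?_))
        split_ifs with t
        · exact q
        all_goals
          refine Finset.mem_union_left _ (Finset.mem_sdiff.2 ⟨q, fun w => t (hi ?_)⟩)
          simp only [Finset.mem_insert, Finset.mem_singleton] at w
          omega
      · simp [b, q]
    have m3 : ¬ M.Indep X → d ∈ R := fun q => m1 0 (Finset.mem_union_right _ (by simp [q]))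
    have m5 := add_mem (add_mem (add_mem (add_mem (m2 0 (by simp)) (m2 1 (by simp)))
      (m2 2 (by simp))) (m2 3 (by simp))) (m2 4 (by simp))
    have e3 : c = b 0 • γ x 0 + b 1 • γ x 1 + b 2 • γ x 2 + b 3 • γ x 3 + b 4 • γ x 4 +
        (b 5 • γ x 5 + b 6 • γ x 6 +
          (∑ e ∈ X, a (.inl e) * g e + (b 5 + b 6) * (1 - x)) • d) := by
      rw [← e2, γ5 0, γ5 1, γ5 2, γ5 3, γ5 4, γ5 5, γ5 6]
      simp (config := {decide := true}) only [if_true, if_false]
      module
    rw [e3]
    refine add_mem m5 ?_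
    by_cases t : M.Spanning X
    · refine add_mem (add_mem (m2 5 fun _ => t) (m2 6 fun _ => t)) ?_
      by_cases q : M.Indep X
      · obtain ⟨l, l1, l2⟩ := x3 (q.isBase_of_spanning t)
        have := linearIndepOn_finset_iff.1 (li.1 q) (fun e => a (.inl e) + (b 5 + b 6) * l e) (by
          simp only [add_smul (a _), mul_smul, Finset.sum_add_distrib, ← Finset.smul_sum, l1, e1])
        rw [← l2, Finset.mul_sum, ← Finset.sum_add_distrib, Finset.sum_eq_zero, zero_smul]
        · exact zero_mem _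
        · intro e he
          linear_combination g e * this e he
      · exact smul_mem _ _ (m3 q)
    · have μ : b 5 + b 6 = 0 := by
        by_contra w
        refine t (h2 X ((smul_mem_iff _ w).1 ?_))
        rw [eq_neg_of_add_eq_zero_right e1]
        exact neg_mem (sum_mem fun e he => smul_mem _ _ (subset_span ⟨e, he, rfl⟩))
      refine add_mem ?_ ?_
      · by_cases w : 5 ∈ J ∧ 6 ∈ J
        · have : b 5 • γ x 5 + b 6 • γ x 6 = b 5 • γ x 1 := by
            rw [eq_neg_of_add_eq_zero_right μ]; funext j; fin_cases j <;> simp [γ]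
          rw [this]
          exact smul_mem _ _ (m1 1 (Finset.mem_union_left _ (by simp [t, w])))
        · have : b 5 = 0 ∧ b 6 = 0 := by
            rcases not_and_or.1 w with w | w
            · have : b 5 = 0 := if_neg w
              exact ⟨this, by rwa [this, zero_add] at μ⟩
            · have : b 6 = 0 := if_neg w
              exact ⟨by rwa [this, add_zero] at μ, this⟩
          simp [this]
      · by_cases q : M.Indep X
        · rw [μ, zero_smul, add_zero] at e1
          rw [μ, zero_mul, add_zero, Finset.sum_eq_zero, zero_smul]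
          · exact zero_mem _
          · intro e he
            rw [linearIndepOn_finset_iff.1 (li.1 q) _ e1 e he, zero_mul]
        · exact smul_mem _ _ (m3 q)

end gen

end Pool.Agent.H.MP_97f6bf_co
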