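import Mathlib
import Pool.Agent.H.MP_97f6bf_co.A
import Pool.Agent.H.MP_a6f858_co.A

set_option autoImplicit false

namespace Pool.Agent.H.MP_97f6bf_co

open Set Submodule Module Matroid Pool.Agent.H.MP_5d01ce_co

section reg
variable {ι V : Type} [Fintype V] [DecidableEq V] [DecidableEq ι] (F : Type) [Field F]

def ev (en : ι × Bool → V) (e : ι) : V → F := Pi.single (en (e, true)) 1 - Pi.single (en (e, false)) 1

theorem li_iff_leafy (en : ι × Bool → V) (S : Finset ι) : LinearIndepOn F (ev F en) S ↔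
    ∀ T ⊆ S, T.Nonempty → ∃ d : ι × Bool, d.1 ∈ T ∧
      ∀ d' : ι × Bool, d'.1 ∈ T → en d' = en d → d' = d := by
  classical
  constructor
  · intro h T hT hne
    by_contra q
    push Not at q
    let W := (T ×ˢ (Finset.univ : Finset Bool)).image en
    have h1 : 2 * W.card ≤ (T ×ˢ (Finset.univ : Finset Bool)).card := by
      refine Finset.mul_card_image_le_card _ _ fun w hw => ?_
      obtain ⟨d, hd, rfl⟩ := Finset.mem_image.1 hw
      obtain ⟨d', a, b, c⟩ := q d (Finset.mem_product.1 hd).1
      exact Finset.one_lt_card.2 ⟨d', by simp [a, b], d, by simpa using hd, c⟩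
    obtain ⟨e0, he0⟩ := hne
    have hw : en (e0, true) ∈ W := Finset.mem_image_of_mem _ (by simpa using he0)
    have h2 := H.MP_a6f858_co.inj_bound (span F (ev F en '' T))
      (LinearMap.pi fun w : W.erase (en (e0, true)) => LinearMap.proj (w : V)) (by
        intro x hx h0
        have a1 : ∀ w, w ∉ W → x w = 0 := by
          intro w hw
          refine (span_le.2 ?_ : span F _ ≤ LinearMap.ker (LinearMap.proj w)) hx
          rintro _ ⟨e, he, rfl⟩
          have : ∀ b, w ≠ en (e, b) := fun b r =>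
            hw (r ▸ Finset.mem_image_of_mem _ (by simpa using he))
          simp [ev, this]
        have a2 : ∑ w, x w = 0 := by
          have := (span_le.2 ?_ : span F _ ≤ LinearMap.ker
            (∑ w : V, (LinearMap.proj w : (V → F) →ₗ[F] F))) hx
          · simpa [LinearMap.sum_apply] using this
          rintro _ ⟨e, he, rfl⟩
          simp [LinearMap.sum_apply, ev, Finset.sum_sub_distrib]
        have a3 : ∀ w, w ≠ en (e0, true) → x w = 0 := fun w r => by
          by_cases t : w ∈ W
          · exact congrFun h0 ⟨w, Finset.mem_erase.2 ⟨r, t⟩⟩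
          · exact a1 w t
        funext w
        by_cases t : w = en (e0, true)
        · rwa [Finset.sum_eq_single w (fun b _ r => a3 b (t ▸ r)) (by simp)] at a2
        · exact a3 w t)
    rw [li_rk T.finite_toSet (h.mono hT), ncard_coe_finset, Module.finrank_fintype_fun_eq_card,
      Fintype.card_coe, Finset.card_erase_of_mem hw] at h2
    have := Finset.card_pos.2 ⟨_, hw⟩
    rw [Finset.card_product, Finset.card_univ, Fintype.card_bool] at h1
    omega
  · intro h2
    rw [linearIndepOn_finset_iff]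
    intro f hf
    by_contra hne
    push Not at hne
    obtain ⟨i, hi, hfi⟩ := hne
    obtain ⟨⟨e, b⟩, h3, h4⟩ := h2 (S.filter fun e : ι => f e ≠ 0) (Finset.filter_subset _ _)
      ⟨i, Finset.mem_filter.2 ⟨hi, hfi⟩⟩
    have h5 := congrFun hf (en (e, b))
    rw [Finset.sum_apply, Finset.sum_eq_single e] at h5
    · have h6 := (Finset.mem_filter.1 h3).2
      have h7 : en (e, !b) ≠ en (e, b) := fun q => by simpa using h4 (e, !b) h3 q
      apply h6
      cases b
      · simpa [ev, Pi.single_eq_of_ne (show en (e, false) ≠ en (e, true) from h7.symm)] using h5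
      · simpa [ev, Pi.single_eq_of_ne (show en (e, true) ≠ en (e, false) from h7.symm)] using h5
    · intro g hg hge
      by_cases q : f g = 0
      · simp [q]
      have h8 : ∀ c, en (e, b) ≠ en (g, c) := fun c r =>
        hge (congrArg Prod.fst (h4 (g, c) (Finset.mem_filter.2 ⟨hg, q⟩) r.symm))
      simp [ev, h8]
    · intro q
      exact absurd (Finset.mem_filter.1 h3).1 q

end reg

section grid
variable {n : ℕ} (F : Type) [Field F]

abbrev Ix (n : ℕ) := Bool × Fin n × Fin n

def cell (s : Bool) (i j : Fin n) : Fin n × Fin n := if s then (j, i) else (i, j)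

def en (d : Ix n × Bool) : Option (Fin n × Fin n) :=
  if d.2 then some (cell d.1.1 d.1.2.1 d.1.2.2)
  else if h : d.1.2.2.1 + 1 < n then some (cell d.1.1 d.1.2.1 ⟨_, h⟩) else none

def φ (s : Bool) (i j : Fin n) : (Option (Fin n × Fin n) → F) →ₗ[F] F :=
  ∑ l ∈ Finset.Iic j, LinearMap.proj (some (cell s i l))

theorem φ1 (s : Bool) (i j k l : Fin n) :
    φ F s i j (Pi.single (some (cell s k l)) 1) = if k = i ∧ l ≤ j then 1 else 0 := by
  have : ∀ l', some (cell s i l') = some (cell s k l) ↔ k = i ∧ l' = l := by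
    intro l'; cases s <;> simp [cell] <;> tauto
  simp only [φ, LinearMap.sum_apply, LinearMap.proj_apply, Pi.single_apply, this]
  by_cases q : k = i <;> simp [q]

theorem φ0 (s : Bool) (i j : Fin n) : φ F s i j (Pi.single none 1) = 0 := by
  simp [φ, LinearMap.sum_apply]

theorem cell_not (s : Bool) (i j : Fin n) : cell (!s) i j = cell s j i := by cases s <;> rfl

theorem φa (s : Bool) (i j k l : Fin n) :
    φ F s i j (ev F en (s, k, l)) = if k = i ∧ l = j then 1 else 0 := by
  simp only [ev, en, map_sub, if_true, φ1, Bool.false_eq_true, if_false]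
  by_cases h : l.1 + 1 < n
  · rw [dif_pos h, φ1]
    simp only [Fin.le_def, Fin.ext_iff]
    split_ifs <;> first | omega | simp
  · rw [dif_neg h, φ0]
    simp only [Fin.le_def, Fin.ext_iff]
    split_ifs <;> first | omega | simp

theorem φb (s : Bool) (i j k l : Fin n) (h1 : l.1 + 1 ≠ i.1) :
    φ F s i j (ev F en (!s, k, l)) = if l = i ∧ k ≤ j then 1 else 0 := by
  simp only [ev, en, map_sub, if_true, φ1, Bool.false_eq_true, if_false, cell_not]
  by_cases h : l.1 + 1 < n
  · rw [dif_pos h, φ1, if_neg (show ¬ ((⟨_, h⟩ : Fin n) = i ∧ k ≤ j) from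
      fun q => h1 (congrArg Fin.val q.1)), sub_zero]
  · rw [dif_neg h, φ0, sub_zero]

def Sd (n : ℕ) (s : Bool) : Finset (Ix n) := Finset.univ.filter fun e => e.1 = s

theorem mix (s : Bool) (I : Finset (Fin n)) (hI : ∀ i ∈ I, ∀ k ∈ I, i.1 % 2 = k.1 % 2)
    (X : Finset (Ix n)) (h : ∀ i ∈ I, ∃ l j, l ≤ j ∧ (!s, l, i) ∈ X ∧ (s, i, j) ∉ X) :
    ∃ Y : Finset (Ix n), Y ⊆ X ∧ Y.card = (X ∩ Sd n s).card + I.card ∧ X ∩ Sd n s ⊆ Y ∧
      LinearIndepOn F (ev F (en (n := n))) (Y : Set (Ix n)) := by
  classical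
  choose! l j h1 h2 h3 using h
  let Bq := I.image fun i => (!s, l i, i)
  have inj : Function.Injective fun i : Fin n => (!s, l i, i) := fun a b q => by
    simpa using (congrArg (·.2.2) q)
  have dj : Disjoint (X ∩ Sd n s) Bq := by
    rw [Finset.disjoint_left]
    intro e a b
    obtain ⟨i, -, rfl⟩ := Finset.mem_image.1 b
    simp [Sd] at a
  refine ⟨X ∩ Sd n s ∪ Bq, Finset.union_subset Finset.inter_subset_left fun e he => ?_, ?_,
    Finset.subset_union_left, ?_⟩
  · obtain ⟨i, a, rfl⟩ := Finset.mem_image.1 he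
    exact h2 i a
  · rw [Finset.card_union_of_disjoint dj, Finset.card_image_of_injective _ inj]
  rw [linearIndepOn_finset_iff]
  intro c hc
  rw [Finset.sum_union dj, Finset.sum_image inj.injOn] at hc
  have a1 : ∀ i ∈ I, c (!s, l i, i) = 0 := by
    intro i hi
    have := congrArg (φ F s i (j i)) hc
    rw [map_add, map_sum, map_sum, Finset.sum_eq_zero, Finset.sum_eq_single i] at this
    · rw [map_smul, φb F _ _ _ _ _ (by omega)] at this
      simpa [h1 i hi] using this
    · intro k hk q
      rw [map_smul, φb F _ _ _ _ _ (by have := hI i hi k hk; omega), if_neg fun r => q r.1,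
        smul_zero]
    · exact fun q => absurd hi q
    · rintro ⟨t, a, b⟩ he
      simp only [Sd, Finset.mem_inter, Finset.mem_filter, Finset.mem_univ, true_and] at he
      obtain ⟨he, rfl⟩ := he
      rw [map_smul, φa, if_neg, smul_zero]
      rintro ⟨rfl, rfl⟩
      exact h3 _ hi he
  rw [Finset.sum_eq_zero (s := I) fun i hi => by rw [a1 i hi, zero_smul], add_zero] at hc
  intro e he
  rcases Finset.mem_union.1 he with he | he
  · obtain ⟨t, a, b⟩ := e
    have ht : t = s := by simpa [Sd] using (Finset.mem_inter.1 he).2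
    subst ht
    have := congrArg (φ F t a b) hc
    rw [map_sum, Finset.sum_eq_single (t, a, b)] at this
    · simpa [φa] using this
    · rintro ⟨t', a', b'⟩ h4 q
      have ht : t' = t := by simpa [Sd] using (Finset.mem_inter.1 h4).2
      subst ht
      rw [map_smul, φa, if_neg, smul_zero]
      rintro ⟨rfl, rfl⟩
      exact q rfl
    · exact fun q => absurd he q
  · obtain ⟨i, a, rfl⟩ := Finset.mem_image.1 he
    exact a1 i a

theorem card_Sd (s : Bool) : (Sd n s).card = n * n := by
  have : Sd n s = {s} ×ˢ Finset.univ := by ext ⟨a, b⟩; simp [Sd, eq_comm]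
  simp [this]

theorem base_Sd {M : Matroid (Ix n)} (r : Rp F M (ev F en)) (hE : M.E = univ) (s : Bool) :
    M.IsBase (Sd n s) := by
  obtain ⟨Y, -, -, h1, h2⟩ := mix F s ∅ (by simp) (Sd n s) (by simp)
  rw [Finset.inter_self] at h1
  refine ((r _ (hE ▸ subset_univ _)).2 (h2.mono h1)).isBase_of_ground_subset_closure fun e he => ?_
  rw [r.cl (hE ▸ subset_univ _) he]
  have k : ∀ (i : Fin n) (t : ℕ) (j : Fin n), j.1 + t + 1 = n →
      (Pi.single (some (cell s i j)) 1 - Pi.single none 1 : Option (Fin n × Fin n) → F) ∈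
        span F (ev F en '' (Sd n s)) := by
    intro i t
    induction t with
    | zero =>
      intro j hj
      refine subset_span ⟨(s, i, j), by simp [Sd], ?_⟩
      simp [ev, en, show ¬ j.1 + 1 < n by omega]
    | succ t ih =>
      intro j hj
      have h : j.1 + 1 < n := by omega
      have := add_mem (subset_span (R := F) (s := ev F en '' (Sd n s : Set (Ix n)))
        ⟨(s, i, j), by simp [Sd], rfl⟩) (ih ⟨_, h⟩ (by simp; omega))
      simpa [ev, en, h] using this
  have k2 : ∀ w : Option (Fin n × Fin n), (Pi.single w 1 - Pi.single none 1 :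
      Option (Fin n × Fin n) → F) ∈ span F (ev F en '' (Sd n s)) := by
    rintro (_ | ⟨a, b⟩)
    · simp
    · cases s
      · exact k a (n - b - 1) b (by omega)
      · exact k b (n - a - 1) a (by omega)
  simpa [ev] using sub_mem (k2 (en (e, true))) (k2 (en (e, false)))

theorem lam (X : Finset (Ix n)) (h1 : 2 * (n * n) ≤ 3 * X.card) (h2 : 2 * (n * n) ≤ 3 * Xᶜ.card) :
    6 * (n * n) + n ≤ 6 * (rk F (ev F en) X + rk F (ev F en) Xᶜ) := by
  classical
  let Mx := fun s : Bool => Finset.univ.filter fun i : Fin n =>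
    ∃ l j, l ≤ j ∧ ¬ ((!s, l, i) ∈ X ↔ (s, i, j) ∈ X)
  have pure : ∀ s i, i ∉ Mx s → ∀ j l, ((s, i, j) ∈ X ↔ (s, i, i) ∈ X) ∧
      ((!s, l, i) ∈ X ↔ (s, i, i) ∈ X) := by
    intro s i hi j l
    simp only [Mx, Finset.mem_filter, Finset.mem_univ, true_and, not_exists, not_and, not_not] at hi
    have z := i.pos
    have a := fun j => hi ⟨0, z⟩ j (by simp [Fin.le_def])
    have b := hi l ⟨n - 1, by omega⟩ (by simp [Fin.le_def]; omega)
    exact ⟨(a j).symm.trans (a i), b.trans ((a _).symm.trans (a i))⟩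
  have cnt : ∀ Z : Finset (Ix n), 2 * (n * n) ≤ 3 * Z.card →
      (∀ e ∈ Z, (if e.1 then e.2.2 else e.2.1) ∈ Mx false) → n ≤ 3 * (Mx false).card := by
    intro Z a b
    have := Finset.card_le_mul_card_image_of_maps_to b (2 * n) fun i _ => by
      refine (Finset.card_le_card_of_injOn (t := Finset.univ)
        (fun e : Ix n => (e.1, if e.1 then e.2.1 else e.2.2)) (by simp) ?_).trans (by simp)
      rintro ⟨s, a, b⟩ p ⟨s', a', b'⟩ p' q
      simp only [Finset.coe_filter, mem_ofPred_eq, Prod.mk.injEq] at p p' q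
      obtain ⟨rfl, q⟩ := q
      cases s <;> simp_all
    rcases Nat.eq_zero_or_pos n with h | h
    · omega
    · nlinarith
  obtain ⟨s, hs⟩ : ∃ s, n ≤ 3 * (Mx s).card := by
    by_cases a : ∀ i, i ∉ Mx false → (false, i, i) ∈ X
    · refine ⟨false, cnt _ h2 ?_⟩
      rintro ⟨s, k, l⟩ he
      by_contra q
      cases s
      · exact Finset.mem_compl.1 he ((pure _ _ q l l).1.2 (a _ q))
      · exact Finset.mem_compl.1 he ((pure _ _ q k k).2.2 (a _ q))
    by_cases b : ∀ i, i ∉ Mx false → (false, i, i) ∉ X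
    · refine ⟨false, cnt _ h1 ?_⟩
      rintro ⟨s, k, l⟩ he
      by_contra q
      cases s
      · exact b _ q ((pure _ _ q l l).1.1 he)
      · exact b _ q ((pure _ _ q k k).2.1 he)
    push Not at a b
    obtain ⟨i, a1, a2⟩ := a
    obtain ⟨k, b1, b2⟩ := b
    refine ⟨true, ?_⟩
    have : Mx true = Finset.univ := Finset.eq_univ_of_forall fun m => by
      by_contra q
      exact a2 ((pure _ _ a1 m m).2.1 ((pure _ _ q i i).1.2
        ((pure _ _ q k k).1.1 ((pure _ _ b1 m m).2.2 b2))))
    rw [this]; simp; omega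
  obtain ⟨p, hp⟩ : ∃ p, (Mx s).card ≤ 2 * ((Mx s).filter fun i : Fin n => i.1 % 2 = p).card := by
    have := Finset.card_filter_add_card_filter_not (s := Mx s) (fun i : Fin n => i.1 % 2 = 0)
    have e : ((Mx s).filter fun i : Fin n => ¬ i.1 % 2 = 0) =
        (Mx s).filter fun i : Fin n => i.1 % 2 = 1 := Finset.filter_congr fun i _ => by omega
    rw [e] at this
    by_contra q
    push Not at q
    have := q 0
    have := q 1
    omega
  set I := (Mx s).filter fun i : Fin n => i.1 % 2 = p
  let Q := fun i : Fin n => ∃ l j, l ≤ j ∧ (!s, l, i) ∈ X ∧ (s, i, j) ∉ X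
  have par : ∀ i ∈ I, i.1 % 2 = p := fun i hi => (Finset.mem_filter.1 hi).2
  obtain ⟨Y1, a1, a2, -, a3⟩ := mix F s (I.filter Q) (fun i a k b =>
    (par i (Finset.mem_filter.1 a).1).trans (par k (Finset.mem_filter.1 b).1).symm) X
    fun i hi => (Finset.mem_filter.1 hi).2
  obtain ⟨Y2, b1, b2, -, b3⟩ := mix F s (I.filter fun i => ¬ Q i) (fun i a k b =>
    (par i (Finset.mem_filter.1 a).1).trans (par k (Finset.mem_filter.1 b).1).symm) Xᶜ
    fun i hi => by
      obtain ⟨c, d⟩ := Finset.mem_filter.1 hi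
      obtain ⟨l, j, e, f⟩ := (Finset.mem_filter.1 (Finset.mem_filter.1 c).1).2
      refine ⟨l, j, e, ?_⟩
      simp only [Finset.mem_compl, not_not]
      have : ¬ ((!s, l, i) ∈ X ∧ (s, i, j) ∉ X) := fun q => d ⟨l, j, e, q⟩
      tauto
  have c1 := (rk_li a3).symm.trans_le (rk_mono (F := F) (ev F en) a1)
  have c2 := (rk_li b3).symm.trans_le (rk_mono (F := F) (ev F en) b1)
  have c3 := Finset.card_filter_add_card_filter_not (s := I) Q
  have c4 : (X ∩ Sd n s).card + (Xᶜ ∩ Sd n s).card = n * n := by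
    rw [← card_Sd s, ← Finset.card_union_of_disjoint
      (Finset.disjoint_left.2 fun e a b => by simp_all), ← Finset.union_inter_distrib_right]
    simp
  omega

end grid

end Pool.Agent.H.MP_97f6bf_co
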