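import Mathlib
import Pool.Agent.H.MP_97f6bf_co.B

set_option autoImplicit false

namespace Pool.Agent.H.MP_97f6bf_co

open Set Submodule Module Matroid Pool.Agent.H.MP_5d01ce_co

section tree
variable {V : Type} {T : SimpleGraph V}

abbrev RR (T : SimpleGraph V) (u v y : V) : Prop := (T.deleteEdges {s(u, v)}).Reachable u y

theorem rr_step {u v a y z : V} (h : (T.deleteEdges {s(u, v)}).Reachable a y) (a1 : T.Adj y z)
    (q : s(y, z) ≠ s(u, v)) : (T.deleteEdges {s(u, v)}).Reachable a z :=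
  h.trans (SimpleGraph.deleteEdges_adj.2 ⟨a1, q⟩).reachable

theorem rr_cover (hc : T.Preconnected) (u v y : V) : RR T u v y ∨ RR T v u y := by
  have := (SimpleGraph.reachable_iff_reflTransGen _ _).1 (hc u y)
  induction this with
  | refl => exact Or.inl (.refl _)
  | @tail y z _ a ih =>
    by_cases q : s(y, z) = s(u, v)
    · rcases Sym2.eq_iff.1 q with ⟨-, rfl⟩ | ⟨-, rfl⟩
      · exact Or.inr (.refl _)
      · exact Or.inl (.refl _)
    · exact ih.imp (fun h => rr_step h a q) fun h => rr_step h a (by rwa [Sym2.eq_swap (a := v)])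

theorem rr_split {u v y : V} (h : RR T u v y) : y = u ∨ ∃ w, T.Adj u w ∧ w ≠ v ∧ RR T w u y := by
  have := (SimpleGraph.reachable_iff_reflTransGen _ _).1 h
  clear h
  induction this with
  | refl => exact Or.inl rfl
  | @tail y z _ a ih =>
    obtain ⟨a1, a2⟩ := SimpleGraph.deleteEdges_adj.1 a
    rcases ih with rfl | ⟨w, b1, b2, b3⟩
    · exact Or.inr ⟨z, a1, by rintro rfl; exact a2 rfl, .refl _⟩
    by_cases q : s(y, z) = s(w, u)
    · rcases Sym2.eq_iff.1 q with ⟨-, rfl⟩ | ⟨-, rfl⟩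
      · exact Or.inl rfl
      · exact Or.inr ⟨_, b1, b2, .refl _⟩
    · exact Or.inr ⟨w, b1, b2, rr_step b3 a1 q⟩

theorem rr_sub (ha : T.IsAcyclic) {u v w y : V} (h1 : T.Adj u w) (h2 : w ≠ v) (h : RR T w u y) :
    RR T u v y ∧ y ≠ u := by
  have br : ¬ RR T w u u := SimpleGraph.isAcyclic_iff_forall_adj_isBridge.1 ha h1.symm
  refine ⟨?_, fun q => br (q ▸ h)⟩
  have := (SimpleGraph.reachable_iff_reflTransGen _ _).1 h
  clear h
  induction this with
  | refl => exact rr_step (.refl _) h1 fun q => by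
              rcases Sym2.eq_iff.1 q with ⟨-, q⟩ | ⟨-, q⟩
              · exact h2 q
              · exact h1.ne q.symm
  | @tail y z p a ih =>
    have p1 := (SimpleGraph.reachable_iff_reflTransGen _ _).2 p
    refine rr_step ih (SimpleGraph.deleteEdges_adj.1 a).1 fun q => ?_
    rcases Sym2.eq_iff.1 q with ⟨rfl, -⟩ | ⟨-, rfl⟩
    · exact br p1
    · exact br (p1.trans a.reachable)

theorem tree [Finite V] (ha : T.IsAcyclic) (hc : T.Preconnected)
    (hd : ∀ v, (T.neighborSet v).ncard ≤ 3) {ι : Type} [Finite ι] (g : ι → V)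
    (hg : Function.Injective g) {t : ℕ} (ht : 1 ≤ t) (hι : Nat.card ι = 3 * t) :
    ∃ u v, T.Adj u v ∧ t ≤ {e | RR T u v (g e)}.ncard ∧ {e | RR T u v (g e)}.ncard ≤ 2 * t := by
  obtain ⟨p0, hp0⟩ : ∃ p : V × V, T.Adj p.1 p.2 ∧ t ≤ {e | RR T p.1 p.2 (g e)}.ncard := by
    have : Nontrivial ι := Finite.one_lt_card_iff_nontrivial.1 (by omega)
    obtain ⟨a, b, ab⟩ := exists_pair_ne ι
    obtain ⟨u, v, uv⟩ : ∃ u v, T.Adj u v := by
      obtain ⟨p⟩ := hc (g a) (g b)
      exact ⟨_, _, p.adj_snd (p.not_nil_of_ne (hg.ne ab))⟩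
    have h1 : {e | RR T u v (g e)} ∪ {e | RR T v u (g e)} = univ :=
      eq_univ_of_forall fun e => rr_cover hc u v (g e)
    have h2 := ncard_union_le {e | RR T u v (g e)} {e | RR T v u (g e)}
    rw [h1, ncard_univ] at h2
    by_cases q : t ≤ {e | RR T u v (g e)}.ncard
    · exact ⟨(u, v), uv, q⟩
    · exact ⟨(v, u), uv.symm, by dsimp only; omega⟩
  obtain ⟨⟨u, v⟩, ⟨uv, h1⟩, hmin⟩ := exists_minimalFor_of_wellFoundedLT
    (fun p : V × V => T.Adj p.1 p.2 ∧ t ≤ {e | RR T p.1 p.2 (g e)}.ncard)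
    (fun p => {y | RR T p.1 p.2 y}.ncard) ⟨p0, hp0⟩
  dsimp only at uv h1
  refine ⟨u, v, uv, h1, ?_⟩
  have sm : ∀ w, T.Adj u w → w ≠ v → {e | RR T w u (g e)}.ncard + 1 ≤ t := by
    intro w a b
    by_contra q
    have : {y | RR T w u y}.ncard < {y | RR T u v y}.ncard :=
      ncard_lt_ncard ⟨fun y hy => (rr_sub ha a b hy).1,
        fun r => (rr_sub ha a b (r (SimpleGraph.Reachable.refl u))).2 rfl⟩
    exact this.not_ge (hmin (j := (w, u)) ⟨a.symm, by dsimp only; omega⟩ this.le)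
  have c2 : (T.neighborSet u \ {v}).ncard ≤ 2 := by
    have := ncard_sdiff_singleton_add_one (s := T.neighborSet u) uv
    have := hd u
    omega
  have c1 : (g ⁻¹' {u}).ncard ≤ 1 := (ncard_le_one_iff (toFinite _)).2 fun a b => hg (a.trans b.symm)
  have k : ∀ S : Set V, S.Finite → (∀ w ∈ S, T.Adj u w ∧ w ≠ v) →
      (⋃ w ∈ S, {e | RR T w u (g e)}).ncard + S.ncard ≤ S.ncard * t := by
    intro S hS
    induction S, hS using Set.Finite.induction_on with
    | empty => simp
    | @insert w S a b ih =>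
      intro h
      have h3 := ih fun x hx => h x (mem_insert_of_mem _ hx)
      have h4 := sm w (h w (mem_insert _ _)).1 (h w (mem_insert _ _)).2
      have h5 := ncard_union_le {e | RR T w u (g e)} (⋃ w ∈ S, {e | RR T w u (g e)})
      rw [biUnion_insert, ncard_insert_of_notMem a b, add_mul]
      omega
  have h3 := k (T.neighborSet u \ {v}) (toFinite _) fun w hw => hw
  have h4 : {e | RR T u v (g e)}.ncard ≤ _ := (ncard_le_ncard (t := g ⁻¹' {u} ∪
      ⋃ w ∈ T.neighborSet u \ {v}, {e | RR T w u (g e)}) fun e he => by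
    rcases rr_split he with q | ⟨w, a, b, c⟩
    · exact Or.inl q
    · exact Or.inr (mem_biUnion (x := w) ⟨a, b⟩ c)).trans (ncard_union_le _ _)
  generalize (T.neighborSet u \ {v}).ncard = m at *
  interval_cases m <;> omega

end tree

section gen
variable {α ι : Type} {M K M1 M2 : Matroid α} {j : ι → α} {A B : Set ι}

theorem eRk_con (Q : Matroid α) {P Y : Set α} (hP : P ⊆ Q.E) (hY : Y ⊆ (Q ／ P).E) :
    Q.eRk Y ≤ (Q ／ P).eRk Y + P.encard := by
  obtain ⟨I, hI⟩ := (Q ／ P).exists_isBasis Y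
  have h := hI.subset_closure
  rw [contract_closure_eq] at h
  rw [hI.eRk_eq_encard, ← add_comm]
  refine (Q.eRk_mono (h.trans sdiff_subset)).trans ?_
  rw [eRk_closure_eq, add_comm]
  exact (Q.eRk_le_encard _).trans (encard_union_le _ _)

theorem glue (hE : M1.E.Finite) (h12 : M2.E = M1.E) (hj : Function.Injective j)
    (hAB : Disjoint A B) (hB : B.Nontrivial)
    (h1 : ∀ I, j ⁻¹' I ≠ A → M2.Indep I → M1.Indep I)
    (h2 : ∀ I, j ⁻¹' I ≠ B → M1.Indep I → M2.Indep I) :
    ∃ K : Matroid α, K.E = M1.E ∧ ∀ I, K.Indep I ↔ M1.Indep I ∧ M2.Indep I := by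
  have aug : ∀ M : Matroid α, M.E.Finite → ∀ I J, M.Indep I → M.Indep J → I.ncard < J.ncard →
      ∃ e ∈ J, e ∉ I ∧ M.Indep (insert e I) := by
    intro M hE I J hI hJ h
    obtain ⟨e, h1, h2⟩ := hI.augment hJ (by
      rw [← (hE.subset hI.subset_ground).cast_ncard_eq, ← (hE.subset hJ.subset_ground).cast_ncard_eq]
      exact_mod_cast h)
    exact ⟨e, h1.1, h1.2, h2⟩
  refine ⟨(IndepMatroid.ofFinite (E := M1.E) hE (fun I => M1.Indep I ∧ M2.Indep I)
    ⟨M1.empty_indep, M2.empty_indep⟩ (fun _ _ h s => ⟨h.1.subset s, h.2.subset s⟩) ?_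
    fun _ h => h.1.subset_ground).matroid, rfl, fun I => Iff.rfl⟩
  intro I J hI hJ h
  obtain ⟨e, a1, a2, a3⟩ := aug M1 hE I J hI.1 hJ.1 h
  obtain ⟨f, b1, b2, b3⟩ := aug M2 (h12 ▸ hE) I J hI.2 hJ.2 h
  by_cases p : j ⁻¹' insert e I = B
  · refine ⟨f, b1, b2, h1 _ (fun q => ?_) b3, b3⟩
    have k : ∀ x ∈ B, j x = e := fun x hx => by
      have : j x ∈ insert e I := by rw [← mem_preimage, p]; exact hx
      refine this.resolve_right fun r => disjoint_left.1 hAB ?_ hx
      rw [← q]; exact Or.inr r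
    obtain ⟨x, hx, y, hy, xy⟩ := hB
    exact xy (hj ((k x hx).trans (k y hy).symm))
  · exact ⟨e, a1, a2, a3, h2 _ p a3⟩

theorem caseG (hE : K.E = M.E) (hj : Function.Injective j)
    (hK : ∀ I, j ⁻¹' I ≠ A → (K.Indep I ↔ M.Indep I)) (hn : ∀ b, M.Indep {j b}) {C D : Set α}
    (hd : Disjoint C D) (h : (∃ a ∈ A, j a ∈ D) ∨ ∃ b, b ∉ A ∧ j b ∈ C) :
    K ／ C ＼ D = M ／ C ＼ D := by
  rcases h with ⟨h, h2, h1⟩ | ⟨c, h2, h1⟩
  · have e : K ＼ {j h} = M ＼ {j h} := by
      refine ext_indep (by simp [hE]) fun I _ => ?_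
      rw [delete_indep_iff, delete_indep_iff]
      refine and_congr_left fun q => hK _ ?_
      rintro rfl
      exact disjoint_singleton_right.1 q h2
    have d : Disjoint C {j h} := hd.mono_right (singleton_subset_iff.2 h1)
    rw [← union_eq_self_of_subset_left (singleton_subset_iff.2 h1), ← delete_delete,
      ← delete_delete, contract_delete_comm _ d, contract_delete_comm _ d, e]
  · have e : K ／ {j c} = M ／ {j c} := by
      have i := hn c
      refine ext_indep (by simp [hE]) fun I _ => ?_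
      rw [i.contract_indep_iff, ((hK _ (by rintro rfl; exact h2 rfl)).2 i).contract_indep_iff]
      refine and_congr_right fun _ => hK _ ?_
      rintro rfl
      exact h2 (Or.inr rfl)
    rw [← union_eq_self_of_subset_left (singleton_subset_iff.2 h1), ← contract_contract,
      ← contract_contract, e]

variable {F V G : Type} [Field F] [AddCommGroup G] [Module F G]

theorem no_big [FiniteDimensional F G] (hG : finrank F G = 3) {u : α → (V → F) × G}
    (h : Rp F M u) {Y : Finset α} (hY : (Y : Set α) ⊆ M.E) (hu : ∀ e ∈ Y, S2 (u e))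
    (hn : 1280 < Y.card) (hr : M.eRk Y ≤ 8) (h6 : ∀ I ⊆ Y, I.card = 6 → M.Indep I) : False := by
  classical
  obtain ⟨B, hb⟩ := M.exists_isBasis Y
  lift B to Finset α using Y.finite_toSet.subset hb.subset
  have hc : B.card ≤ 8 := by
    rw [hb.eRk_eq_encard, encard_coe_eq_coe_finsetCard] at hr; exact_mod_cast hr
  obtain ⟨e0, he0⟩ : Y.Nonempty := Finset.card_pos.1 (by omega)
  have : Nonempty V := let ⟨a, _⟩ := hu e0 he0; ⟨a⟩
  choose! a b hab using hu
  let U : Finset V := B.image a ∪ B.image b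
  have hU : U.card ≤ 16 := by
    have h1 := Finset.card_union_le (B.image a) (B.image b)
    have h2 := Finset.card_image_le (s := B) (f := a)
    have h3 := Finset.card_image_le (s := B) (f := b)
    simp only [U]
    omega
  obtain ⟨b0, hb0⟩ : B.Nonempty := by
    obtain ⟨T, hT, hT6⟩ := Finset.exists_subset_card_eq (s := Y) (n := 6) (by omega)
    have := (h6 T hT hT6).encard_le_eRk_of_subset (Finset.coe_subset.2 hT)
    rw [hb.eRk_eq_encard, encard_coe_eq_coe_finsetCard, encard_coe_eq_coe_finsetCard] at this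
    exact Finset.card_pos.1 (by norm_cast at this; omega)
  have hu0 : a b0 ∈ U := Finset.mem_union_left _ (Finset.mem_image_of_mem _ hb0)
  have van : ∀ e ∈ Y, ∀ w, w ∉ U → (u e).1 w = 0 := by
    intro e he w hw
    have h1 : u e ∈ span F (u '' B) :=
      (h.cl hb.indep.subset_ground (hY he)).1 (hb.subset_closure he)
    have h2 : span F (u '' B) ≤
        LinearMap.ker ((LinearMap.proj w).comp (LinearMap.fst F (V → F) G)) := by
      rw [span_le]
      rintro _ ⟨x, hx, rfl⟩
      exact hab x (hb.subset hx) w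
        (fun q => hw (q ▸ Finset.mem_union_left _ (Finset.mem_image_of_mem _ hx)))
        (fun q => hw (q ▸ Finset.mem_union_right _ (Finset.mem_image_of_mem _ hx)))
    exact h2 h1
  let f : α → V × V := fun e => (if a e ∈ U then a e else a b0, if b e ∈ U then b e else a b0)
  obtain ⟨y, -, hy⟩ := Finset.exists_lt_card_fiber_of_mul_lt_card_of_maps_to
    (s := Y) (t := U ×ˢ U) (f := f) (n := 5)
    (fun e _ => Finset.mem_product.2 ⟨by simp only [f]; split_ifs <;> assumption,
      by simp only [f]; split_ifs <;> assumption⟩)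
    (by rw [Finset.card_product]; nlinarith)
  obtain ⟨T, hT, hT7⟩ := Finset.exists_subset_card_eq (n := 6) hy
  have hTE : T ⊆ Y := fun x hx => (Finset.mem_filter.1 (hT hx)).1
  have hli : LinearIndepOn F u T := (h _ ((Finset.coe_subset.2 hTE).trans hY)).1 (h6 T hTE hT7)
  have van2 : ∀ e ∈ T, ∀ w, w ≠ y.1 → w ≠ y.2 → (u e).1 w = 0 := by
    intro e he w h1 h2
    have h3 : f e = y := (Finset.mem_filter.1 (hT he)).2
    by_cases hw : w ∈ U
    · refine hab e (hTE he) w (fun q => h1 ?_) (fun q => h2 ?_)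
      · rw [← h3]; simp only [f]; rw [if_pos (q ▸ hw)]; exact q
      · rw [← h3]; simp only [f]; rw [if_pos (q ▸ hw)]; exact q
    · exact van e (hTE he) w hw
  let ψ : ((V → F) × G) →ₗ[F] F × F × G :=
    ((LinearMap.proj y.1).comp (LinearMap.fst F _ _)).prod
      (((LinearMap.proj y.2).comp (LinearMap.fst F _ _)).prod (LinearMap.snd F _ _))
  have hli2 : LinearIndepOn F (ψ ∘ u) T := by
    refine hli.map_injOn ψ (LinearMap.injOn_of_disjoint_ker le_rfl ?_)
    rw [Submodule.disjoint_def]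
    intro x hx h0
    have h1 : x.1 y.1 = 0 ∧ x.1 y.2 = 0 ∧ x.2 = 0 := by
      simpa [ψ, Prod.ext_iff] using h0
    refine Prod.ext (funext fun w => ?_) h1.2.2
    by_cases q1 : w = y.1
    · rw [q1]; exact h1.1
    by_cases q2 : w = y.2
    · rw [q2]; exact h1.2.1
    have h2 : span F (u '' T) ≤
        LinearMap.ker ((LinearMap.proj w).comp (LinearMap.fst F (V → F) G)) := by
      rw [span_le]
      rintro _ ⟨e, he, rfl⟩
      exact van2 e he w q1 q2
    exact h2 hx
  have := LinearIndependent.fintype_card_le_finrank hli2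
  simp [hG, hT7] at this

theorem no_U [FiniteDimensional F G] (hG : finrank F G = 3) {u : α → (V → F) × G}
    (h : Rp F M u) (hE : M.E.Finite) {p q : α} (hu : ∀ e, e ≠ p → e ≠ q → S2 (u e))
    {C D : Set α} (hC : C ⊆ M.E) (h1 : (M ／ C ＼ D).E.ncard = 2 * 1300)
    (h2 : ∀ I ⊆ (M ／ C ＼ D).E, (M ／ C ＼ D).Indep I ↔ I.ncard ≤ 1300) : False := by
  classical
  have fN : (M ／ C ＼ D).E.Finite := hE.subset (contract_delete_isMinor M C D).subset
  have c1 : 2598 ≤ ((M ／ C ＼ D).E \ {p, q}).ncard := by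
    have := ncard_le_ncard_sdiff_add_ncard (M ／ C ＼ D).E {p, q}
    have : ({p, q} : Set α).ncard ≤ 2 := (ncard_insert_le _ _).trans (by simp)
    omega
  obtain ⟨Z, z1, z2⟩ := exists_subset_card_eq (s := (M ／ C ＼ D).E \ {p, q}) (n := 1294) (by omega)
  have fZ : Z.Finite := fN.subset (z1.trans sdiff_subset)
  obtain ⟨Y, hY⟩ : ∃ Y : Finset α, (Y : Set α) = ((M ／ C ＼ D).E \ {p, q}) \ Z :=
    ⟨_, (fN.subset (sdiff_subset.trans sdiff_subset)).coe_toFinset⟩
  have mY : ∀ e, e ∈ Y ↔ (e ∈ (M ／ C ＼ D).E ∧ e ∉ ({p, q} : Set α)) ∧ e ∉ Z := fun e => by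
    rw [← Finset.mem_coe, hY]; rfl
  have sC : C \ {p, q} ∪ Z ⊆ M.E := union_subset (sdiff_subset.trans hC) fun e he => (z1 he).1.1.1
  obtain ⟨π, p1, p2⟩ := pivot u (hE.subset sC) fun e he => by
    have : e ∉ ({p, q} : Set α) := he.elim (·.2) fun r => (z1 r).2
    exact hu e (fun r => this (Or.inl r)) fun r => this (Or.inr r)
  have r := h.minor sC ∅ π p1
  rw [delete_empty] at r
  have e1 : M ／ (C \ {p, q} ∪ Z) ／ (C ∩ {p, q}) = M ／ C ／ Z := by
    rw [contract_contract, contract_contract, union_right_comm, sdiff_union_inter]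
  have iZ : (M ／ C).Indep Z := ((h2 Z (z1.trans sdiff_subset)).2 (by omega)).of_delete
  have k : ∀ I : Set α, I ⊆ Y → ((M ／ C ／ Z).Indep I ↔ I.ncard ≤ 6) := by
    intro I hI
    have d : Disjoint I Z := disjoint_left.2 fun e he => ((mY e).1 (hI he)).2
    have s : I ∪ Z ⊆ (M ／ C ＼ D).E :=
      union_subset (fun e he => ((mY e).1 (hI he)).1.1) (z1.trans sdiff_subset)
    have := h2 _ s
    rw [delete_indep_iff, and_iff_left (disjoint_left.2 fun e he => (s he).2),
      ncard_union_eq d (Y.finite_toSet.subset hI) fZ] at this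
    rw [iZ.contract_indep_iff, and_iff_right d, this]
    omega
  have sY : (Y : Set α) ⊆ (M ／ C ／ Z).E := fun e he => ⟨((mY e).1 he).1.1.1, ((mY e).1 he).2⟩
  refine no_big hG r (Y := Y) (fun e he => (e1 ▸ sY he).1)
    (fun e he => p2 _ (hu e (fun r => ((mY e).1 he).1.2 (Or.inl r))
      fun r => ((mY e).1 he).1.2 (Or.inr r))) ?_ ?_ fun I hI c => ?_
  · have := ncard_sdiff z1 fZ
    rw [← hY, ncard_coe_finset] at this
    omega
  · have s2 : C ∩ {p, q} ⊆ (M ／ (C \ {p, q} ∪ Z)).E := fun e he =>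
      ⟨hC he.1, fun r => r.elim (fun r => r.2 he.2) fun r => (z1 r).2 he.2⟩
    refine (eRk_con _ s2 (e1 ▸ sY)).trans ?_
    rw [e1, show (8 : ℕ∞) = 6 + 2 by norm_num]
    refine add_le_add (eRk_le_iff.2 fun I a b => ?_) ((encard_le_encard inter_subset_right).trans
      ((encard_insert_le _ _).trans (by simp; norm_num)))
    rw [← (Y.finite_toSet.subset a).cast_ncard_eq]
    exact_mod_cast (k I a).1 b
  · have := (k I (Finset.coe_subset.2 hI)).2 (by simp [c])
    rw [← e1] at this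
    exact this.of_contract

end gen

end Pool.Agent.H.MP_97f6bf_co
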