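import Mathlib
import Pool.Agent.H.MP_97f6bf_co.C

set_option autoImplicit false

namespace Pool.Agent.H.MP_97f6bf_co

open Set Submodule Module Matroid Pool.Agent.H.MP_5d01ce_co

def Has {α β : Type} (M : Matroid α) (N₁ : Matroid β) : Prop :=
  ∃ N : Matroid α, N.IsMinor M ∧ ∃ e : ↥N.E ≃ ↥N₁.E, ∀ I : Set ↥N.E,
    N.Indep (Subtype.val '' I) ↔ N₁.Indep (Subtype.val '' (e '' I))

theorem has_of {α β : Type} {M N : Matroid α} {N₁ : Matroid β} (h : N ≤m M) (hE : N₁.E = univ)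
    {f : β → α} (hf : Function.Injective f) (hN : N.E = range f)
    (hI : ∀ J, N.Indep (f '' J) ↔ N₁.Indep J) : Has M N₁ := by
  let e : ↥N₁.E ≃ ↥N.E := Equiv.ofBijective (fun x => ⟨f x, hN ▸ mem_range_self _⟩)
    ⟨fun a b q => Subtype.ext (hf (congrArg Subtype.val q)), fun ⟨y, hy⟩ => by
      obtain ⟨x, rfl⟩ := hN ▸ hy
      exact ⟨⟨x, hE ▸ mem_univ _⟩, rfl⟩⟩
  refine ⟨N, h, e.symm, fun I => ?_⟩
  rw [← hI, image_image, image_image]
  refine iff_of_eq (congrArg _ (image_congr fun x _ => ?_))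
  exact (congrArg Subtype.val (e.apply_symm_apply x)).symm

theorem not_has {α F U : Type} [Field F] [AddCommGroup U] [Module F U] {M : Matroid α}
    {u : α → U} (r : Rp F M u) {N₁ : Matroid (Fin 7)} (hE : N₁.E = univ) {p : Prop}
    (hp : ∀ T : Finset (Fin 7), N₁.Indep T ↔
      T.card ≤ 3 ∧ T ∉ L5 ∧ T ≠ {2, 4, 5} ∧ (T = {2, 3, 6} → p)) (h : Has M N₁) :
    p ↔ (2 : F) ≠ 0 := by
  obtain ⟨N, hN, e, he⟩ := h
  obtain ⟨C, D, hC, -, -, rfl⟩ := hN.exists_eq_contract_delete_disjoint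
  have r1 := r.minor hC D _ (ker_mkQ _)
  let g : Fin 7 → (M ／ C ＼ D).E := fun i => e.symm ⟨i, hE ▸ mem_univ _⟩
  have gi : Function.Injective fun i => (g i).1 := fun a b q =>
    congrArg Subtype.val (e.symm.injective (Subtype.ext q))
  refine nonrep (((span F (u '' C)).mkQ ∘ u) ∘ fun i => (g i).1) p fun T => ?_
  have := he (g '' T)
  rw [image_image, image_image, image_image, r1 _ (image_subset_iff.2 fun x _ => (g x).2)] at this
  simp only [g, Equiv.apply_symm_apply, image_id'] at this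
  rw [← hp, ← this]
  exact ⟨LinearIndepOn.image_of_comp _ _, fun h => h.comp_of_image gi.injOn⟩

open Classical in
def GG {ι : Type} (M0 : Matroid ι) (G0 : Matroid (Fin 7)) (X : Finset ι) (J : Finset (Fin 7)) :
    Prop := ((X.card + J.card : ℕ) : ℕ∞) = M0.eRk X +
      (if ¬ M0.Spanning X ∧ (5 ∈ J ∨ 6 ∈ J) then 1 else 0 : ℕ) +
        G0.eRk (TT (M0.Spanning X) (M0.Indep X) J)

theorem side (F : Type) [Field F] [Infinite F] {n : ℕ} {M0 : Matroid (Ix n)}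
    (r : Rp F M0 (ev F en)) (hE : M0.E = univ) (s : Bool) {G0 : Matroid (Fin 7)}
    (hG : G0.E = univ) (hG0 : ∀ T : Finset (Fin 7), G0.Indep T ↔ T.card ≤ 3 ∧ T ∉ L5) :
    ∃ M : Matroid (Ix n ⊕ Fin 7), M.E = univ ∧
      (∃ u : Ix n ⊕ Fin 7 → (Option (Fin n × Fin n) → F) × (Fin 3 → F), Rp F M u ∧
        ∀ e, e ≠ .inr 5 → e ≠ .inr 6 → S2 (u e)) ∧
      (∀ I, M0.Indep I → M.Indep (Sum.inl '' I)) ∧
      (∀ X J, X ≠ Sd n s → (M.Indep (X.disjSum J) ↔ GG M0 G0 X J)) ∧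
      (∀ (s' : Bool) (J : Finset (Fin 7)), M.Indep ((Sd n s').disjSum J) ↔ J.card ≤ 3 ∧ J ∉ L5 ∧
        (J = {2, 4, 5} → Sd n s' ≠ Sd n s) ∧ (J = {2, 3, 6} → Sd n s' = Sd n s → (2 : F) ≠ 0)) ∧
      M.eRank ≤ (n * n + 8 : ℕ) := by
  classical
  obtain ⟨u, u1, u2, u3⟩ := formula r hE (base_Sd F r hE s)
  obtain ⟨M, hM, rM⟩ := vm F u finite_univ
  have k : ∀ X : Finset (Ix n ⊕ Fin 7), M.Indep X ↔ X.card = rk F u X := fun X => by
    rw [rM _ (hM ▸ subset_univ _), li_iff_rk]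
  have k0 : ∀ X : Finset (Ix n), M0.eRk X = rk F (ev F en) X := fun X =>
    r.rk (hE ▸ finite_univ) (hE ▸ subset_univ _)
  refine ⟨M, hM, ⟨u, rM, ?_⟩, fun I hI => ?_, fun X J h => ?_, fun s' J => ?_, ?_⟩
  · rintro (e | i) a b
    · refine ⟨en (e, true), en (e, false), fun w c d => ?_⟩
      rw [u1]; simp [ev, c, d]
    · refine ⟨none, none, fun w _ _ => ?_⟩
      rw [u2 i (by
        have : i ≠ 5 := fun q => a (q ▸ rfl)
        have : i ≠ 6 := fun q => b (q ▸ rfl)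
        omega)]
      rfl
  · rw [rM _ (hM ▸ subset_univ _)]
    refine LinearIndepOn.image_of_comp _ _ (LinearIndepOn.of_comp (LinearMap.fst F _ _) ?_)
    exact (linearIndepOn_congr fun e _ => u1 e).2 ((r _ hI.subset_ground).1 hI)
  · obtain ⟨x, -, x2, x3⟩ := u3 X J
    obtain ⟨a, b, c⟩ := x2 h
    have rG : Rp F G0 (γ x) := fun I _ => by
      lift I to Finset (Fin 7) using toFinite I
      rw [hG0, li_γ a]
      tauto
    rw [k, x3, GG, k0, rG.rk (hG ▸ finite_univ) (hG ▸ subset_univ _), Finset.card_disjSum]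
    norm_cast
  · obtain ⟨x, x1, x2, x3⟩ := u3 (Sd n s') J
    have hb := base_Sd F r hE s'
    have x0 : x ≠ 0 := by
      by_cases q : Sd n s' = Sd n s
      · rw [x1 q]; exact one_ne_zero
      · exact (x2 q).1
    rw [k, x3, TT, if_pos hb.spanning, if_pos hb.indep, if_neg fun q => q.1 hb.spanning,
      rk_li ((r _ hb.subset_ground).1 hb.indep), Finset.card_disjSum, Finset.union_empty, add_zero,
      add_right_inj, ← li_iff_rk, li_γ x0]
    by_cases q : Sd n s' = Sd n s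
    · rw [x1 q]
      simp only [q, ne_eq, not_true_eq_false, true_imp_iff, eq_neg_iff_add_eq_zero,
        one_add_one_eq_two]
    · simp only [q, (x2 q).2, ne_eq, not_false_eq_true, false_imp_iff]
  · obtain ⟨B, hB⟩ := M.exists_isBase
    lift B to Finset (Ix n ⊕ Fin 7) using toFinite B
    have h1 := (k B).1 hB.indep
    rw [← hB.encard_eq_eRank, encard_coe_eq_coe_finsetCard, Nat.cast_le, h1,
      ← Finset.toLeft_disjSum_toRight (u := B)]
    obtain ⟨x, -, -, x3⟩ := u3 B.toLeft B.toRight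
    have h2 := M0.eRk_le_eRank B.toLeft
    rw [k0, ← (base_Sd F r hE s).encard_eq_eRank, encard_coe_eq_coe_finsetCard, card_Sd,
      Nat.cast_le] at h2
    have h3 := (rk_le (F := F) (γ x) (TT (M0.Spanning B.toLeft) (M0.Indep B.toLeft) B.toRight)).trans
      (Finset.card_le_univ _)
    rw [Fintype.card_fin] at h3
    rw [x3]
    split_ifs <;> omega

theorem std (F : Type) [Field F] : ∃ N : Matroid (Fin 7), N.E = univ ∧ ∀ T : Finset (Fin 7),
    N.Indep T ↔ T.card ≤ 3 ∧ T ∉ L5 ∧ T ≠ {2, 4, 5} ∧ (T = {2, 3, 6} → (2 : F) ≠ 0) := by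
  obtain ⟨N, h, r⟩ := vm F (γ (1 : F)) finite_univ
  refine ⟨N, h, fun T => ?_⟩
  rw [r _ (h ▸ subset_univ _), li_γ one_ne_zero]
  simp only [ne_eq, not_true_eq_false, eq_neg_iff_add_eq_zero, one_add_one_eq_two, imp_false]

theorem has_side {n : ℕ} (hn : 1 ≤ n) {F : Type} [Field F] {K M : Matroid (Ix n ⊕ Fin 7)}
    {N : Matroid (Fin 7)} (s : Bool) (hM : M.E = univ) (hK : K.E = univ)
    (h1 : ∀ I, Sum.inl ⁻¹' I ≠ (Sd n !s : Set (Ix n)) → (K.Indep I ↔ M.Indep I))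
    (hl : ∀ b, M.Indep {.inl b})
    (h2 : ∀ (s' : Bool) (J : Finset (Fin 7)), M.Indep ((Sd n s').disjSum J) ↔ J.card ≤ 3 ∧ J ∉ L5 ∧
        (J = {2, 4, 5} → Sd n s' ≠ Sd n s) ∧ (J = {2, 3, 6} → Sd n s' = Sd n s → (2 : F) ≠ 0))
    (hN : N.E = univ) (h3 : ∀ T : Finset (Fin 7),
      N.Indep T ↔ T.card ≤ 3 ∧ T ∉ L5 ∧ T ≠ {2, 4, 5} ∧ (T = {2, 3, 6} → (2 : F) ≠ 0)) :
    Has K N := by
  have hd : Disjoint (Sum.inl '' (Sd n s : Set (Ix n)) : Set (Ix n ⊕ Fin 7))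
      (Sum.inl '' (Sd n !s : Set (Ix n))) := by
    rw [disjoint_image_iff Sum.inl_injective, disjoint_left]
    intro a b c
    simp [Sd] at b c
    simp [b] at c
  refine has_of (contract_delete_isMinor K (Sum.inl '' (Sd n s : Set (Ix n)))
    (Sum.inl '' (Sd n !s : Set (Ix n)))) hN Sum.inr_injective ?_ fun J => ?_
  · ext (⟨a, b⟩ | i) <;> simp [hK, Sd]
  rw [caseG (hK.trans hM.symm) Sum.inl_injective h1 hl hd
    (Or.inl ⟨(!s, ⟨0, hn⟩, ⟨0, hn⟩), by simp [Sd], mem_image_of_mem _ (by simp [Sd])⟩)]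
  lift J to Finset (Fin 7) using toFinite J
  have i : M.Indep (Sum.inl '' (Sd n s : Set (Ix n))) := by
    have := (h2 s ∅).2 ⟨by simp, by decide, fun q => absurd q (by decide),
      fun q => absurd q (by decide)⟩
    refine this.subset ?_
    rintro _ ⟨a, b, rfl⟩
    simpa using b
  have e : (Sum.inr '' (J : Set (Fin 7)) ∪ Sum.inl '' (Sd n s : Set (Ix n))) =
      ((Sd n s).disjSum J : Finset (Ix n ⊕ Fin 7)) := by
    ext (a | a) <;> simp
  rw [delete_indep_iff, i.contract_indep_iff, and_iff_left disjoint_image_inl_image_inr.symm,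
    and_iff_right disjoint_image_inl_image_inr.symm, e, h2, h3]
  simp

theorem Has.trans {α β : Type} {M K : Matroid α} {N : Matroid β} (h : Has M N) (m : M ≤m K) :
    Has K N := let ⟨P, a, b⟩ := h; ⟨P, a.trans m, b⟩

theorem main : ∃ N₁ N₂ : Matroid (Fin 7), ∀ m : ℕ, ∃ (α : Type) (M : Matroid α), M.Finite ∧
    Has M N₁ ∧ Has M N₂ ∧ (∀ M' : Matroid α, M'.IsMinor M → M' ≠ M → ¬ (Has M' N₁ ∧ Has M' N₂)) ∧
    ¬ (∃ N : Matroid α, N.IsMinor M ∧ N.E.ncard = 2 * 1300 ∧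
      ∀ I ⊆ N.E, N.Indep I ↔ I.ncard ≤ 1300) ∧
    ∀ (V : Type) (_ : Finite V) (T : SimpleGraph V), T.IsAcyclic → T.Preconnected →
      (∀ v, (T.neighborSet v).ncard ≤ 3) → ∀ f : ↥M.E → V, Function.Injective f →
        ∃ u v : V, T.Adj u v ∧ ¬ (M.eRk {x | ∃ h : x ∈ M.E, RR T u v (f ⟨x, h⟩)} +
          M.eRk (M.E \ {x | ∃ h : x ∈ M.E, RR T u v (f ⟨x, h⟩)}) ≤ M.eRank + (m : ℕ∞)) := by
  classical
  let F1 := AlgebraicClosure (ZMod 2)
  have t1 : (2 : F1) = 0 := CharP.cast_eq_zero F1 2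
  obtain ⟨N1, e1, i1⟩ := std F1
  obtain ⟨N2, e2, i2⟩ := std ℚ
  obtain ⟨G0, hG, rG⟩ := vm ℚ (γ (2 : ℚ)) finite_univ
  have hG0 : ∀ T : Finset (Fin 7), G0.Indep T ↔ T.card ≤ 3 ∧ T ∉ L5 := fun T => by
    rw [rG _ (hG ▸ subset_univ _), li_γ two_ne_zero]
    norm_num
  refine ⟨N1, N2, fun m => ?_⟩
  obtain ⟨n, hn⟩ : ∃ n, n = 3 * (2 * m + 50) := ⟨_, rfl⟩
  obtain ⟨M0, hE, r2⟩ := vm ℚ (ev ℚ (en (n := n))) finite_univ
  have r1 : Rp F1 M0 (ev F1 en) := fun I hI => by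
    lift I to Finset (Ix n) using toFinite I
    rw [r2 _ hI, li_iff_leafy, li_iff_leafy]
  obtain ⟨M1, a1, ⟨u1, a2, a3⟩, a4, a5, a6, a7⟩ := side F1 r1 hE false hG hG0
  obtain ⟨M2, b1, ⟨u2, b2, b3⟩, b4, b5, b6, -⟩ := side ℚ r2 hE true hG hG0
  have z : 0 < n := by omega
  have ne : Sd n true ≠ Sd n false := fun q => by
    have : (true, (⟨0, z⟩ : Fin n), (⟨0, z⟩ : Fin n)) ∈ Sd n true := by simp [Sd]
    rw [q] at this
    simp [Sd] at this
  have dec : ∀ I : Set (Ix n ⊕ Fin 7), ∃ (X : Finset (Ix n)) (J : Finset (Fin 7)),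
      I = X.disjSum J ∧ Sum.inl ⁻¹' I = X := fun I => by
    lift I to Finset (Ix n ⊕ Fin 7) using toFinite I
    exact ⟨I.toLeft, I.toRight, by rw [Finset.toLeft_disjSum_toRight], by ext; simp⟩
  have c1 : ∀ I, Sum.inl ⁻¹' I ≠ (Sd n false : Set (Ix n)) → M2.Indep I → M1.Indep I := by
    intro I h i
    obtain ⟨X, J, rfl, q⟩ := dec I
    rw [q, Ne, Finset.coe_inj] at h
    by_cases p : X = Sd n true
    · rw [p, b6] at i
      rw [p, a6]
      exact ⟨i.1, i.2.1, fun _ => ne, fun _ q => absurd q ne⟩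
    · exact (a5 X J h).2 ((b5 X J p).1 i)
  have c2 : ∀ I, Sum.inl ⁻¹' I ≠ (Sd n true : Set (Ix n)) → M1.Indep I → M2.Indep I := by
    intro I h i
    obtain ⟨X, J, rfl, q⟩ := dec I
    rw [q, Ne, Finset.coe_inj] at h
    by_cases p : X = Sd n false
    · rw [p, a6] at i
      rw [p, b6]
      exact ⟨i.1, i.2.1, fun _ => ne.symm, fun _ q => absurd q ne.symm⟩
    · exact (b5 X J h).2 ((a5 X J p).1 i)
  obtain ⟨K, hK, iK⟩ := glue (a1 ▸ finite_univ) (b1.trans a1.symm) Sum.inl_injective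
    (disjoint_left.2 fun a b c => by simp_all [Sd])
    ⟨(true, ⟨0, z⟩, ⟨0, z⟩), by simp [Sd], (true, ⟨0, z⟩, ⟨1, by omega⟩), by simp [Sd], by simp⟩ c1 c2
  have kE : K.E = univ := hK.trans a1
  have k1 : ∀ I, Sum.inl ⁻¹' I ≠ (Sd n true : Set (Ix n)) → (K.Indep I ↔ M1.Indep I) :=
    fun I h => (iK I).trans (and_iff_left_of_imp (c2 I h))
  have k2 : ∀ I, Sum.inl ⁻¹' I ≠ (Sd n false : Set (Ix n)) → (K.Indep I ↔ M2.Indep I) :=
    fun I h => (iK I).trans (and_iff_right_of_imp (c1 I h))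
  have nl : ∀ b, M0.Indep {b} := fun b =>
    (base_Sd ℚ r2 hE b.1).indep.subset (by simp [Sd])
  have l1 : ∀ b, M1.Indep {.inl b} := fun b => by simpa using a4 _ (nl b)
  have l2 : ∀ b, M2.Indep {.inl b} := fun b => by simpa using b4 _ (nl b)
  have cs : ∀ C D : Set (Ix n ⊕ Fin 7), Disjoint C D → ∀ e, Sum.inl e ∉ (K ／ C ＼ D).E →
      K ／ C ＼ D = M1 ／ C ＼ D ∨ K ／ C ＼ D = M2 ／ C ＼ D := by
    rintro C D hd ⟨s, e⟩ he
    have : Sum.inl (s, e) ∈ C ∨ Sum.inl (s, e) ∈ D := by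
      by_contra q
      push Not at q
      exact he ⟨⟨kE ▸ mem_univ _, q.1⟩, q.2⟩
    have p1 := caseG hK Sum.inl_injective k1 l1 hd
    have p2 := caseG (kE.trans b1.symm) Sum.inl_injective k2 l2 hd
    cases s <;> rcases this with h | h
    · exact Or.inl (p1 (Or.inr ⟨_, by simp [Sd], h⟩))
    · exact Or.inr (p2 (Or.inl ⟨_, by simp [Sd], h⟩))
    · exact Or.inr (p2 (Or.inr ⟨_, by simp [Sd], h⟩))
    · exact Or.inl (p1 (Or.inl ⟨_, by simp [Sd], h⟩))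
  obtain ⟨N, ⟨hN, h1, h2⟩, hmin⟩ := exists_minimalFor_of_wellFoundedLT
    (fun N : Matroid (Ix n ⊕ Fin 7) => N ≤m K ∧ Has N N1 ∧ Has N N2) (fun N => N.E.ncard)
    ⟨K, IsMinor.refl, has_side z false a1 kE k1 l1 a6 e1 i1, has_side z true b1 kE k2 l2 b6 e2 i2⟩
  have cI : Nat.card (Ix n) = 2 * (n * n) := by simp
  refine ⟨_, N, ⟨toFinite _⟩, h1, h2, fun N' a b c => ?_, ?_, fun V _ T ha hc hd f hf => ?_⟩
  · have := ncard_lt_ncard (isStrictMinor_iff_isMinor_ne.2 ⟨a, b⟩).ssubset (toFinite _)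
    exact this.not_ge (hmin ⟨a.trans hN, c⟩ this.le)
  · rintro ⟨P, a, b, c⟩
    obtain ⟨C, D, -, -, hd, rfl⟩ := (a.trans hN).exists_eq_contract_delete_disjoint
    by_cases q : ∀ e, Sum.inl e ∈ (K ／ C ＼ D).E
    · have := ncard_le_ncard (range_subset_iff.2 q) (toFinite _)
      rw [ncard_range_of_injective Sum.inl_injective, cI, b] at this
      nlinarith
    push Not at q
    obtain ⟨e, he⟩ := q
    rcases cs C D hd e he with h | h <;> rw [h] at b c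
    · exact no_U (by simp) a2 (toFinite _) a3 (a1 ▸ subset_univ _) b c
    · exact no_U (by simp) b2 (toFinite _) b3 (b1 ▸ subset_univ _) b c
  have rN : N.eRank ≤ (n * n + 8 : ℕ) := by
    obtain ⟨B, hB⟩ := N.exists_isBase
    rw [← hB.encard_eq_eRank]
    exact ((iK B).1 (hB.indep.of_isMinor hN)).1.encard_le_eRank.trans a7
  obtain ⟨C, D, hC, -, hd', rfl⟩ := hN.exists_eq_contract_delete_disjoint
  have co : ∀ e, Sum.inl e ∈ (K ／ C ＼ D).E := fun e => by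
    by_contra he
    rcases cs C D hd' e he with h | h <;> rw [h] at h1 h2
    · exact (not_has a2 e2 i2 (h2.trans (contract_delete_isMinor _ _ _))).1 two_ne_zero t1
    · exact (not_has b2 e1 i1 (h1.trans (contract_delete_isMinor _ _ _))).2 two_ne_zero t1
  have c7 : C.encard ≤ 7 := by
    refine (encard_le_encard (t := Sum.inr '' univ) ?_).trans ((encard_image_le _ _).trans (by simp))
    rintro (e | i) h
    · exact absurd h (co e).1.2
    · simp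
  have lb : ∀ (X : Finset (Ix n)) (Y : Set (Ix n ⊕ Fin 7)), (∀ e ∈ X, Sum.inl e ∈ Y) →
      (rk ℚ (ev ℚ en) X : ℕ∞) ≤ (K ／ C ＼ D).eRk Y + 7 := by
    intro X Y h
    obtain ⟨I, hI⟩ := M0.exists_isBasis X (hE ▸ subset_univ _)
    have s : Sum.inl '' I ⊆ (K ／ C ＼ D).E := image_subset_iff.2 fun e _ => co e
    have p := eRk_con K hC (Y := Sum.inl '' I) (s.trans sdiff_subset)
    rw [((iK _).2 ⟨a4 _ hI.indep, b4 _ hI.indep⟩).eRk_eq_encard, Sum.inl_injective.encard_image,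
      ← hI.eRk_eq_encard, r2.rk (toFinite _) (hE ▸ subset_univ _)] at p
    refine p.trans (add_le_add ?_ c7)
    rw [← restrict_eRk_eq _ s]
    exact (K ／ C ＼ D).eRk_mono (image_subset_iff.2 fun e he => h e (hI.subset he))
  obtain ⟨u, v, uv, w1, w2⟩ := tree ha hc hd (fun e : Ix n => f ⟨.inl e, co e⟩)
    (fun a b q => Sum.inl_injective (congrArg Subtype.val (hf q))) (t := 2 * ((2 * m + 50) * n))
    (by nlinarith) (by rw [cI, hn]; ring)
  refine ⟨u, v, uv, fun q => ?_⟩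
  obtain ⟨X, hX⟩ : ∃ X : Finset (Ix n), (X : Set (Ix n)) = {e | RR T u v (f ⟨.inl e, co e⟩)} :=
    ⟨_, (toFinite _).coe_toFinset⟩
  rw [← hX, ncard_coe_finset] at w1 w2
  have mX : ∀ e, e ∈ X ↔ RR T u v (f ⟨.inl e, co e⟩) := fun e => by
    rw [← Finset.mem_coe, hX]; rfl
  have w3 := Finset.card_add_card_compl X
  rw [← Nat.card_eq_fintype_card, cI] at w3
  have w4 : n * n = 3 * ((2 * m + 50) * n) := by rw [← mul_assoc, ← hn]
  have w5 := lam ℚ X (by omega) (by omega)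
  have w6 := add_le_add (lb X {x | ∃ h : x ∈ (K ／ C ＼ D).E, RR T u v (f ⟨x, h⟩)}
    fun e he => ⟨co e, (mX e).1 he⟩)
    (lb Xᶜ ((K ／ C ＼ D).E \ {x | ∃ h : x ∈ (K ／ C ＼ D).E, RR T u v (f ⟨x, h⟩)})
      fun e he => ⟨co e, fun ⟨_, p⟩ => Finset.mem_compl.1 he ((mX e).2 p)⟩)
  rw [add_add_add_comm] at w6
  have w7 := w6.trans (add_le_add (q.trans (add_le_add rN le_rfl)) le_rfl)
  norm_cast at w7
  omega

end Pool.Agent.H.MP_97f6bf_co
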